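import Mathlib

/-!
The Razborov-Smolensky method: low degree function spaces on the Boolean cube.
-/

open Finset

namespace Pool.Agent.MP_a2d820_lc

section Deg

variable {ι : Type} [Fintype ι] [DecidableEq ι] (K : Type) [Field K]

/-- The multilinear monomial on the set `S` as a function on the cube. -/
def mono (S : Finset ι) : (ι → Bool) → K := fun ω => ∏ i ∈ S, if ω i = true then (1 : K) else 0

/-- Functions on the cube of degree at most `D`. -/
noncomputable def Deg (D : ℕ) : Submodule K ((ι → Bool) → K) := by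
  classical
  exact Submodule.span K ((univ.filter fun S : Finset ι => S.card ≤ D).image (mono K) : Finset _)

variable {K}

omit [Fintype ι] in
lemma mono_mul (S T : Finset ι) : mono K S * mono K T = mono K (S ∪ T) := by
  funext ω
  simp only [mono, Pi.mul_apply]
  by_cases h : ∀ i ∈ S ∪ T, ω i = true
  · rw [prod_eq_one, prod_eq_one, prod_eq_one, mul_one]
    · intro i hi; simp [h i hi]
    · intro i hi; simp [h i (mem_union_right _ hi)]
    · intro i hi; simp [h i (mem_union_left _ hi)]
  · push Not at h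
    obtain ⟨i, hi, hω⟩ := h
    rw [prod_eq_zero hi (by simp [hω])]
    rcases mem_union.1 hi with h' | h'
    · rw [prod_eq_zero h' (by simp [hω]), zero_mul]
    · rw [prod_eq_zero h' (by simp [hω]), mul_zero]

lemma mono_mem {S : Finset ι} {D : ℕ} (h : S.card ≤ D) : mono K S ∈ Deg (ι := ι) K D := by
  classical
  apply Submodule.subset_span
  simp only [coe_image, coe_filter, mem_univ, true_and, Set.mem_image, Set.mem_ofPred_eq]
  exact ⟨S, h, rfl⟩

lemma Deg_induction {D : ℕ} {p : ((ι → Bool) → K) → Prop} (hm : ∀ S : Finset ι, S.card ≤ D →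
    p (mono K S)) (h0 : p 0) (ha : ∀ f g, p f → p g → p (f + g))
    (hs : ∀ (c : K) f, p f → p (c • f)) {f : (ι → Bool) → K} (hf : f ∈ Deg (ι := ι) K D) :
    p f := by
  classical
  refine Submodule.span_induction (p := fun f _ => p f) ?_ h0 (fun f g _ _ => ha f g)
    (fun c f _ => hs c f) hf
  intro f hf
  simp only [coe_image, coe_filter, mem_univ, true_and, Set.mem_image, Set.mem_ofPred_eq] at hf
  obtain ⟨S, hS, rfl⟩ := hf
  exact hm S hS

lemma Deg_mono {D E : ℕ} (h : D ≤ E) {f : (ι → Bool) → K} (hf : f ∈ Deg (ι := ι) K D) :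
    f ∈ Deg (ι := ι) K E :=
  Deg_induction (p := fun f => f ∈ Deg (ι := ι) K E) (fun _ hS => mono_mem (hS.trans h))
    (Submodule.zero_mem _) (fun _ _ => Submodule.add_mem _) (fun c _ => Submodule.smul_mem _ c) hf

lemma Deg_mul {D E : ℕ} {f g : (ι → Bool) → K} (hf : f ∈ Deg (ι := ι) K D)
    (hg : g ∈ Deg (ι := ι) K E) : f * g ∈ Deg (ι := ι) K (D + E) := by
  refine Deg_induction (p := fun f => f * g ∈ Deg (ι := ι) K (D + E)) ?_ ?_ ?_ ?_ hf
  · intro S hS
    refine Deg_induction (p := fun g => mono K S * g ∈ Deg (ι := ι) K (D + E)) ?_ ?_ ?_ ?_ hg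
    · intro T hT
      rw [mono_mul]
      exact mono_mem ((card_union_le S T).trans (add_le_add hS hT))
    · simp
    · intro a b ha hb
      rw [mul_add]; exact Submodule.add_mem _ ha hb
    · intro c a ha
      rw [mul_smul_comm]; exact Submodule.smul_mem _ c ha
  · simp
  · intro a b ha hb
    rw [add_mul]; exact Submodule.add_mem _ ha hb
  · intro c a ha
    rw [smul_mul_assoc]; exact Submodule.smul_mem _ c ha

lemma one_mem_Deg (D : ℕ) : (1 : (ι → Bool) → K) ∈ Deg (ι := ι) K D := by
  have : (1 : (ι → Bool) → K) = mono K ∅ := by funext ω; simp [mono]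
  rw [this]; exact mono_mem (by simp)

lemma Deg_prod {α : Type} (s : Finset α) (f : α → (ι → Bool) → K) (D : ℕ)
    (h : ∀ a ∈ s, f a ∈ Deg (ι := ι) K D) : ∏ a ∈ s, f a ∈ Deg (ι := ι) K (s.card * D) := by
  classical
  induction s using Finset.induction_on with
  | empty => simpa using one_mem_Deg 0
  | insert a s ha ih =>
    rw [prod_insert ha, card_insert_of_notMem ha, add_mul, one_mul, add_comm]
    exact Deg_mul (h a (mem_insert_self _ _)) (ih fun b hb => h b (mem_insert_of_mem hb))

lemma Deg_pow {f : (ι → Bool) → K} {D : ℕ} (h : f ∈ Deg (ι := ι) K D) (n : ℕ) :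
    f ^ n ∈ Deg (ι := ι) K (n * D) := by
  have := Deg_prod (range n) (fun _ => f) D (fun _ _ => h)
  simpa using this

lemma coord_mem_Deg (i : ι) (α β : K) :
    (fun ω : ι → Bool => if ω i = true then α else β) ∈ Deg (ι := ι) K 1 := by
  have : (fun ω : ι → Bool => if ω i = true then α else β) =
      β • (1 : (ι → Bool) → K) + (α - β) • mono K {i} := by
    funext ω
    by_cases h : ω i = true <;> simp [mono, h]
  rw [this]
  exact Submodule.add_mem _ (Submodule.smul_mem _ _ (one_mem_Deg 1))
    (Submodule.smul_mem _ _ (mono_mem (by simp)))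

lemma const_mem_Deg (c : K) (D : ℕ) : (fun _ : ι → Bool => c) ∈ Deg (ι := ι) K D := by
  have : (fun _ : ι → Bool => c) = c • (1 : (ι → Bool) → K) := by funext ω; simp
  rw [this]; exact Submodule.smul_mem _ _ (one_mem_Deg D)

lemma finrank_Deg_le (D : ℕ) :
    Module.finrank K (Deg (ι := ι) K D) ≤ ∑ i ∈ range (D + 1), (Fintype.card ι).choose i := by
  classical
  refine (finrank_span_finset_le_card _).trans (card_image_le.trans ?_)
  have : (univ.filter fun S : Finset ι => S.card ≤ D) =
      (range (D + 1)).biUnion fun i => powersetCard i (univ : Finset ι) := by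
    ext S
    simp
  rw [this]
  refine card_biUnion_le.trans (le_of_eq ?_)
  simp [card_powersetCard]

lemma card_le_of_interpolates (G : Finset (ι → Bool)) (D : ℕ)
    (h : ∀ g : (ι → Bool) → K, ∃ P ∈ Deg (ι := ι) K D, ∀ ω ∈ G, P ω = g ω) :
    G.card ≤ ∑ i ∈ range (D + 1), (Fintype.card ι).choose i := by
  classical
  refine le_trans ?_ (finrank_Deg_le (K := K) D)
  let ρ : Deg (ι := ι) K D →ₗ[K] (G → K) :=
    (LinearMap.funLeft K K (fun ω : G => (ω : ι → Bool))).comp (Deg (ι := ι) K D).subtype
  have hρ : Function.Surjective ρ := by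
    intro g
    obtain ⟨P, hP, hPg⟩ := h (fun ω => if hω : ω ∈ G then g ⟨ω, hω⟩ else 0)
    refine ⟨⟨P, hP⟩, funext fun ω => ?_⟩
    have := hPg ω ω.2
    simpa [ρ, LinearMap.funLeft] using this
  have := LinearMap.finrank_le_finrank_of_surjective hρ
  simpa using this

/-- Smolensky's dimension bound. -/
lemma smolensky {k D : ℕ} (hι : Fintype.card ι = 2 * k + 1) (w : K) (hw0 : w ≠ 0) (hw1 : w ≠ 1)
    (G : Finset (ι → Bool)) (P : (ι → Bool) → K) (hP : P ∈ Deg (ι := ι) K D)
    (hPG : ∀ ω ∈ G, P ω = ∏ i, if ω i = true then w else 1) :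
    G.card ≤ 4 ^ k + D * (2 * k + 1).choose k := by
  classical
  let W : Submodule K ((ι → Bool) → K) :=
    { carrier := {g | ∃ Q ∈ Deg (ι := ι) K (k + D), ∀ ω ∈ G, Q ω = g ω}
      zero_mem' := ⟨0, Submodule.zero_mem _, fun _ _ => rfl⟩
      add_mem' := by
        rintro a b ⟨Q, hQ, hQa⟩ ⟨R, hR, hRb⟩
        exact ⟨Q + R, Submodule.add_mem _ hQ hR, fun ω hω => by simp [hQa ω hω, hRb ω hω]⟩
      smul_mem' := by
        rintro c a ⟨Q, hQ, hQa⟩
        exact ⟨c • Q, Submodule.smul_mem _ c hQ, fun ω hω => by simp [hQa ω hω]⟩ }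
  let y : ι → (ι → Bool) → K := fun i ω => if ω i = true then w else 1
  have hy : ∀ S : Finset ι, ∏ i ∈ S, y i ∈ W := by
    intro S
    by_cases hS : S.card ≤ k
    · refine ⟨∏ i ∈ S, y i, Deg_mono ?_ (Deg_prod S y 1 fun i _ => coord_mem_Deg i w 1),
        fun _ _ => rfl⟩
      omega
    · refine ⟨P * ∏ i ∈ Sᶜ, fun ω => if ω i = true then w⁻¹ else 1,
        Deg_mono ?_ (Deg_mul hP (Deg_prod Sᶜ _ 1 fun i _ => coord_mem_Deg i w⁻¹ 1)),
        fun ω hω => ?_⟩
      · rw [card_compl, hι]; omega
      · simp only [Pi.mul_apply, Finset.prod_apply, hPG ω hω, y]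
        rw [← prod_mul_prod_compl S, mul_assoc, ← prod_mul_distrib, prod_eq_one (s := Sᶜ), mul_one]
        intro i _
        by_cases h : ω i = true <;> simp [h, hw0]
  have hw1' : w - 1 ≠ 0 := sub_ne_zero.2 hw1
  have hδ : ∀ ω₀ : ι → Bool, (Pi.single ω₀ 1 : (ι → Bool) → K) ∈ W := by
    intro ω₀
    let α : ι → K := fun i => if ω₀ i = true then (w - 1)⁻¹ else -(w - 1)⁻¹
    let β : ι → K := fun i => if ω₀ i = true then -(w - 1)⁻¹ else w * (w - 1)⁻¹
    have : (Pi.single ω₀ 1 : (ι → Bool) → K) =
        ∑ S ∈ (univ : Finset ι).powerset,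
          ((∏ i ∈ S, α i) * ∏ i ∈ univ \ S, β i) • ∏ i ∈ S, y i := by
      funext ω
      have h1 : (Pi.single ω₀ 1 : (ι → Bool) → K) ω = ∏ i, (α i * y i ω + β i) := by
        by_cases hω : ω = ω₀
        · subst hω
          rw [Pi.single_eq_same, prod_eq_one]
          intro i _
          by_cases h : ω i = true
          · simp only [α, β, y, h, if_true]; field_simp; ring
          · simp only [α, β, y, h]; simp; field_simp; ring
        · rw [Pi.single_eq_of_ne hω]
          obtain ⟨i, hi⟩ := Function.ne_iff.1 hω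
          rw [prod_eq_zero (mem_univ i)]
          by_cases h : ω i = true
          · have h' : ¬ ω₀ i = true := fun h' => hi (h.trans h'.symm)
            simp only [α, β, y, h, h', if_true]; simp; ring
          · have h' : ω₀ i = true := by
              cases h1 : ω i <;> cases h2 : ω₀ i <;> simp_all
            simp [α, β, y, h, h']
      rw [h1, prod_add, Finset.sum_apply]
      refine sum_congr rfl fun S _ => ?_
      simp only [Pi.smul_apply, Finset.prod_apply, smul_eq_mul, prod_mul_distrib]
      ring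
    rw [this]
    exact Submodule.sum_mem _ fun S _ => Submodule.smul_mem _ _ (hy S)
  have hall : ∀ g : (ι → Bool) → K, g ∈ W := by
    intro g
    rw [← Finset.univ_sum_single g]
    refine Submodule.sum_mem _ fun ω _ => ?_
    have : (Pi.single ω (g ω) : (ι → Bool) → K) = g ω • (Pi.single ω 1 : (ι → Bool) → K) := by
      rw [← Pi.single_smul]; simp
    rw [this]
    exact Submodule.smul_mem _ _ (hδ ω)
  refine (card_le_of_interpolates (K := K) G (k + D) hall).trans ?_
  rw [hι, show k + D + 1 = (k + 1) + D by ring, sum_range_add, Nat.sum_range_choose_halfway]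
  refine Nat.add_le_add_left ?_ _
  calc ∑ x ∈ range D, (2 * k + 1).choose (k + 1 + x)
      ≤ ∑ _x ∈ range D, (2 * k + 1).choose k := by
        refine sum_le_sum fun x _ => ?_
        have := Nat.choose_le_middle (k + 1 + x) (2 * k + 1)
        rwa [show (2 * k + 1) / 2 = k by omega] at this
    _ = D * (2 * k + 1).choose k := by simp

end Deg

lemma centralBinom_sq_le (k : ℕ) : k.centralBinom ^ 2 * (2 * k + 1) ≤ 16 ^ k := by
  induction k with
  | zero => simp
  | succ k ih =>
    have h := Nat.succ_mul_centralBinom_succ k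
    have hpos : 0 < (k + 1) ^ 2 := by positivity
    refine Nat.le_of_mul_le_mul_left ?_ hpos
    calc (k + 1) ^ 2 * ((k + 1).centralBinom ^ 2 * (2 * (k + 1) + 1))
        = ((k + 1) * (k + 1).centralBinom) ^ 2 * (2 * k + 3) := by ring
      _ = (k.centralBinom ^ 2 * (2 * k + 1)) * (4 * ((2 * k + 1) * (2 * k + 3))) := by
        rw [h]; ring
      _ ≤ 16 ^ k * (16 * (k + 1) ^ 2) := by
        refine Nat.mul_le_mul ih ?_
        nlinarith
      _ = (k + 1) ^ 2 * 16 ^ (k + 1) := by ring

lemma degree_lower {k D : ℕ} (h : 4 ^ k ≤ 2 * (D * (2 * k + 1).choose k)) :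
    2 * k + 3 ≤ 16 * D ^ 2 := by
  have h1 : (k + 1).centralBinom = 2 * (2 * k + 1).choose k := by
    rw [Nat.centralBinom, show 2 * (k + 1) = (2 * k + 1) + 1 by ring, Nat.choose_succ_succ,
      Nat.choose_symm_half]
    ring
  have h2 := centralBinom_sq_le (k + 1)
  rw [h1] at h2
  have h3 : (4 ^ k) ^ 2 ≤ (2 * (D * (2 * k + 1).choose k)) ^ 2 := Nat.pow_le_pow_left h 2
  have h4 : (4 ^ k) ^ 2 = 16 ^ k := by rw [← pow_mul, mul_comm, pow_mul]; norm_num
  have hpos : 0 < 16 ^ k := by positivity
  refine Nat.le_of_mul_le_mul_left ?_ hpos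
  calc 16 ^ k * (2 * k + 3) ≤ (2 * (D * (2 * k + 1).choose k)) ^ 2 * (2 * k + 3) := by
        rw [← h4]; exact Nat.mul_le_mul_right _ h3
    _ = D ^ 2 * ((2 * (2 * k + 1).choose k) ^ 2 * (2 * (k + 1) + 1)) := by ring
    _ ≤ D ^ 2 * 16 ^ (k + 1) := Nat.mul_le_mul_left _ h2
    _ = 16 ^ k * (16 * D ^ 2) := by ring

section Approx

variable {ι : Type} [Fintype ι] [DecidableEq ι] (K : Type) [Field K]

/-- The Boolean function `g` agrees outside `B` with a function of degree at most `D`. -/
def LowOff (B : Finset (ι → Bool)) (D : ℕ) (g : (ι → Bool) → Bool) : Prop :=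
  ∃ P ∈ Deg (ι := ι) K D, ∀ ω ∉ B, P ω = if g ω = true then 1 else 0

variable {K}

lemma LowOff.mono {B : Finset (ι → Bool)} {D E : ℕ} {g : (ι → Bool) → Bool}
    (h : LowOff K B D g) (hDE : D ≤ E) : LowOff K B E g := by
  obtain ⟨P, hP, hPg⟩ := h
  exact ⟨P, Deg_mono hDE hP, hPg⟩

lemma LowOff.not {B : Finset (ι → Bool)} {D : ℕ} {g : (ι → Bool) → Bool}
    (h : LowOff K B D g) : LowOff K B D (fun ω => !g ω) := by
  obtain ⟨P, hP, hPg⟩ := h
  refine ⟨1 - P, Submodule.sub_mem _ (one_mem_Deg D) hP, fun ω hω => ?_⟩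
  cases h : g ω <;> simp [hPg ω hω, h]

lemma LowOff.xor {B : Finset (ι → Bool)} {D : ℕ} {g : (ι → Bool) → Bool}
    (h : LowOff K B D g) (s : Bool) : LowOff K B D (fun ω => xor (g ω) s) := by
  cases s
  · simpa using h
  · simpa using h.not

lemma LowOff.and {B : Finset (ι → Bool)} {D E : ℕ} {g g' : (ι → Bool) → Bool}
    (h : LowOff K B D g) (h' : LowOff K B E g') : LowOff K B (D + E) (fun ω => g ω && g' ω) := by
  obtain ⟨P, hP, hPg⟩ := h
  obtain ⟨Q, hQ, hQg⟩ := h'
  refine ⟨P * Q, Deg_mul hP hQ, fun ω hω => ?_⟩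
  cases h : g ω <;> cases h' : g' ω <;> simp [hPg ω hω, hQg ω hω, h, h']

lemma LowOff.congr {B : Finset (ι → Bool)} {D : ℕ} {g g' : (ι → Bool) → Bool}
    (h : LowOff K B D g) (hg : ∀ ω, g ω = g' ω) : LowOff K B D g' := by
  rwa [← funext hg]

lemma lowOff_const (B : Finset (ι → Bool)) (c : Bool) : LowOff K B 1 (fun _ => c) :=
  ⟨fun _ => if c = true then 1 else 0, const_mem_Deg _ _, fun _ _ => rfl⟩

lemma lowOff_coord (B : Finset (ι → Bool)) (i : ι) : LowOff K B 1 (fun ω => ω i) :=
  ⟨_, coord_mem_Deg i 1 0, fun _ _ => rfl⟩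

lemma natCast_pow_pred {p : ℕ} [hp : Fact p.Prime] [CharP K p] (n : ℕ) :
    (n : K) ^ (p - 1) = if p ∣ n then 0 else 1 := by
  split_ifs with h
  · rw [(CharP.cast_eq_zero_iff K p n).2 h, zero_pow]
    have := hp.out.two_le
    omega
  · have h1 : ((n : ZMod p)) ^ (p - 1) = 1 :=
      ZMod.pow_card_sub_one_eq_one (fun h' => h ((ZMod.natCast_eq_zero_iff n p).1 h'))
    have := congrArg (ZMod.castHom (dvd_refl p) K) h1
    simpa using this

/-- A gate counting its true inputs modulo `p`. -/
lemma lowOff_mod {p : ℕ} [Fact p.Prime] [CharP K p] {α : Type} (T : Finset α)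
    (g : α → (ι → Bool) → Bool) {B : Finset (ι → Bool)} {D : ℕ}
    (h : ∀ a ∈ T, LowOff K B D (g a)) :
    LowOff K B ((p - 1) * D) (fun ω => decide (¬ p ∣ (T.filter fun a => g a ω = true).card)) := by
  classical
  choose! P hP hPg using h
  refine ⟨(∑ a ∈ T, P a) ^ (p - 1), Deg_pow (Submodule.sum_mem _ hP) _, fun ω hω => ?_⟩
  have : (∑ a ∈ T, P a) ω = ((T.filter fun a => g a ω = true).card : K) := by
    rw [Finset.sum_apply, card_filter, Nat.cast_sum]
    refine sum_congr rfl fun a ha => ?_
    rw [hPg a ha ω hω]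
    split_ifs <;> simp
  rw [Pi.pow_apply, this, natCast_pow_pred]
  by_cases h : p ∣ (T.filter fun a => g a ω = true).card <;> simp [h]

omit [Fintype ι] [DecidableEq ι] in
lemma exists_halving {p : ℕ} (hp : 2 ≤ p) {α : Type} [Fintype α] (g : α → (ι → Bool) → Bool)
    (B : Finset (ι → Bool)) (hB : ∀ ω ∈ B, ∃ a, g a ω = true) :
    ∃ T : Finset α, 2 * (B.filter fun ω => p ∣ (T.filter fun a => g a ω = true).card).card
      ≤ B.card := by
  classical
  have key : ∀ ω ∈ B, 2 * (univ.filter fun T : Finset α =>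
      p ∣ (T.filter fun a => g a ω = true).card).card ≤ Fintype.card (Finset α) := by
    intro ω hω
    obtain ⟨a, ha⟩ := hB ω hω
    let f : Finset α → Finset α := fun T => if a ∈ T then T.erase a else insert a T
    have hf : ∀ T, f (f T) = T := by
      intro T
      by_cases h : a ∈ T
      · simp [f, h]
      · simp [f, h]
    have hinj : Function.Injective f := Function.LeftInverse.injective hf
    have hcard : ∀ T : Finset α, p ∣ (T.filter fun a => g a ω = true).card →
        ¬ p ∣ ((f T).filter fun a => g a ω = true).card := by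
      intro T h1 h2
      have h3 : p ∣ 1 := by
        by_cases h : a ∈ T
        · have : (T.filter fun a => g a ω = true) =
              insert a ((f T).filter fun a => g a ω = true) := by
            ext b; by_cases hb : b = a <;> simp [f, h, hb, ha]
          rw [this, card_insert_of_notMem (by simp [f, h])] at h1
          exact (Nat.dvd_add_right h2).1 h1
        · have : ((f T).filter fun a => g a ω = true) =
              insert a (T.filter fun a => g a ω = true) := by
            ext b; by_cases hb : b = a <;> simp [f, h, hb, ha]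
          rw [this, card_insert_of_notMem (by simp [h])] at h2
          exact (Nat.dvd_add_right h1).1 h2
      have := Nat.le_of_dvd one_pos h3
      omega
    have hle : (univ.filter fun T : Finset α => p ∣ (T.filter fun a => g a ω = true).card).card ≤
        (univ.filter fun T : Finset α => ¬ p ∣ (T.filter fun a => g a ω = true).card).card := by
      refine card_le_card_of_injOn f ?_ hinj.injOn
      intro T hT
      simp only [coe_filter, mem_univ, true_and, Set.mem_ofPred_eq] at hT ⊢
      exact hcard T hT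
    have := card_filter_add_card_filter_not (s := (univ : Finset (Finset α)))
      (fun T : Finset α => p ∣ (T.filter fun a => g a ω = true).card)
    rw [card_univ] at this
    omega
  by_contra hcon
  push Not at hcon
  have h1 : ∑ T : Finset α, 2 * (B.filter fun ω =>
      p ∣ (T.filter fun a => g a ω = true).card).card ≤ B.card * Fintype.card (Finset α) := by
    have hc : ∀ T : Finset α, (B.filter fun ω =>
        p ∣ (T.filter fun a => g a ω = true).card).card =
        ∑ ω ∈ B, if p ∣ (T.filter fun a => g a ω = true).card then 1 else 0 :=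
      fun T => card_filter _ _
    simp only [hc, mul_sum]
    rw [sum_comm]
    calc _ ≤ ∑ _ω ∈ B, Fintype.card (Finset α) := by
          refine sum_le_sum fun ω hω => ?_
          have := key ω hω
          rwa [card_filter (fun T : Finset α => p ∣ (T.filter fun a => g a ω = true).card) univ,
            mul_sum] at this
      _ = _ := by simp
  have h2 : ∑ _T : Finset α, B.card < ∑ T : Finset α, 2 * (B.filter fun ω =>
      p ∣ (T.filter fun a => g a ω = true).card).card :=
    sum_lt_sum_of_nonempty univ_nonempty fun T _ => hcon T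
  simp only [sum_const, card_univ, smul_eq_mul] at h2
  rw [mul_comm] at h2
  omega

/-- Approximation of an unbounded fan-in disjunction. -/
lemma exists_bad_or {p : ℕ} [hp : Fact p.Prime] [CharP K p] {α : Type} [Fintype α]
    (g : α → (ι → Bool) → Bool) (l : ℕ) :
    ∃ β : Finset (ι → Bool), β.card * 2 ^ l ≤ 2 ^ Fintype.card ι ∧
      ∀ (B : Finset (ι → Bool)) (D : ℕ), β ⊆ B → (∀ a, LowOff K B D (g a)) →
        LowOff K B (l * ((p - 1) * D)) (fun ω => decide (∃ a, g a ω = true)) := by
  classical
  have main : ∀ l : ℕ, ∃ T : Fin l → Finset α,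
      (univ.filter fun ω : ι → Bool => (∃ a, g a ω = true) ∧
        ∀ j, p ∣ ((T j).filter fun a => g a ω = true).card).card * 2 ^ l
          ≤ 2 ^ Fintype.card ι := by
    intro l
    induction l with
    | zero =>
      refine ⟨Fin.elim0, ?_⟩
      rw [pow_zero, mul_one]
      refine (card_filter_le _ _).trans ?_
      simp
    | succ l ih =>
      obtain ⟨T, hT⟩ := ih
      obtain ⟨T₀, hT₀⟩ := exists_halving hp.out.two_le g (univ.filter fun ω : ι → Bool =>
        (∃ a, g a ω = true) ∧ ∀ j, p ∣ ((T j).filter fun a => g a ω = true).card)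
        (fun ω hω => (mem_filter.1 hω).2.1)
      refine ⟨Fin.cons T₀ T, ?_⟩
      rw [filter_filter] at hT₀
      have : (univ.filter fun ω : ι → Bool => (∃ a, g a ω = true) ∧
          ∀ j : Fin (l + 1), p ∣ (((Fin.cons T₀ T : Fin (l + 1) → Finset α) j).filter
            fun a => g a ω = true).card) = univ.filter fun ω : ι → Bool =>
          ((∃ a, g a ω = true) ∧ ∀ j, p ∣ ((T j).filter fun a => g a ω = true).card) ∧
            p ∣ (T₀.filter fun a => g a ω = true).card := by
        ext ω
        simp only [mem_filter, mem_univ, true_and, Fin.forall_fin_succ, Fin.cons_zero,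
          Fin.cons_succ]
        tauto
      rw [this, pow_succ]
      nlinarith [Nat.mul_le_mul_right (2 ^ l) hT₀]
  obtain ⟨T, hT⟩ := main l
  refine ⟨_, hT, fun B D hB hg => ?_⟩
  have h1 : ∀ j, LowOff K B ((p - 1) * D)
      (fun ω => !decide (¬ p ∣ ((T j).filter fun a => g a ω = true).card)) :=
    fun j => (lowOff_mod (T j) g fun a _ => hg a).not
  choose P hP hPg using h1
  refine ⟨1 - ∏ j, P j, Submodule.sub_mem _ (one_mem_Deg _) ?_, fun ω hω => ?_⟩
  · simpa using Deg_prod univ P _ fun j _ => hP j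
  · simp only [Pi.sub_apply, Pi.one_apply, Finset.prod_apply]
    by_cases h : ∃ a, g a ω = true
    · have h2 : ¬ ∀ j, p ∣ ((T j).filter fun a => g a ω = true).card := by
        intro h2
        exact hω (hB (mem_filter.2 ⟨mem_univ _, h, h2⟩))
      push Not at h2
      obtain ⟨j, hj⟩ := h2
      rw [prod_eq_zero (mem_univ j) (by rw [hPg j ω hω]; simp [hj])]
      simp [h]
    · rw [prod_eq_one]
      · simp [h]
      · intro j _
        rw [hPg j ω hω]
        have : ((T j).filter fun a => g a ω = true) = ∅ := by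
          apply filter_eq_empty_iff.2
          intro a _ ha
          exact h ⟨a, ha⟩
        simp [this]

end Approx

end Pool.Agent.MP_a2d820_lc
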