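import Pool.Agent.MP_a2d820_lc.Core
import Pool.Agent.MP_a2d820_lc.Smolensky

/-!
Low degree approximation of circuits and of the decision list.
-/

open Finset

namespace Pool.Agent.MP_a2d820_lc

variable {V ι : Type} [Fintype ι] [DecidableEq ι] {K : Type} [Field K]

lemma count_true_map {α : Type} (l : List α) (g : α → Bool) :
    (l.map g).count true = (univ.filter fun j : Fin l.length => g (l.get j) = true).card := by
  induction l with
  | nil => simp
  | cons a l ih =>
    rw [List.map_cons, List.count_cons, ih, card_filter, card_filter]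
    simp only [List.length_cons]
    rw [Fin.sum_univ_succ]
    cases h : g a <;> simp [add_comm, h]

lemma HasACmod.approx {p d s : ℕ} [hp : Fact p.Prime] [CharP K p] {f : (V → Bool) → Bool}
    (h : HasACmod p d s f) (σ : (ι → Bool) → V → Bool)
    (hσ : ∀ v B, LowOff K B 1 fun ω => σ ω v) (l : ℕ) (hl : 1 ≤ l) :
    ∃ β : Finset (ι → Bool), β.card * 2 ^ l ≤ s * 2 ^ Fintype.card ι ∧
      ∀ B, β ⊆ B → LowOff K B ((l * (p - 1)) ^ d) fun ω => f (σ ω) := by
  classical
  obtain ⟨kind, inp, layer, val, out, hacyc, hval, hout⟩ := h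
  choose β hβ hβ' using fun g : Fin s => exists_bad_or (K := K) (p := p)
    (fun (j : Fin (inp g).length) (ω : ι → Bool) =>
      xor (wireVal val ((inp g).get j) (σ ω)) (decide (kind g = Gate.and))) l
  have hp1 : 1 ≤ l * (p - 1) := by
    have := hp.out.two_le
    exact Nat.mul_pos hl (by omega)
  refine ⟨univ.biUnion β, ?_, fun B hB => ?_⟩
  · calc (univ.biUnion β).card * 2 ^ l ≤ (∑ g, (β g).card) * 2 ^ l :=
          Nat.mul_le_mul_right _ card_biUnion_le
      _ = ∑ g, (β g).card * 2 ^ l := sum_mul _ _ _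
      _ ≤ ∑ _g : Fin s, 2 ^ Fintype.card ι := sum_le_sum fun g _ => hβ g
      _ = _ := by simp
  have hwire : ∀ n : ℕ, (∀ g : Fin s, (layer g).val < n →
      LowOff K B ((l * (p - 1)) ^ n) fun ω => val g (σ ω)) →
      ∀ w : (V ⊕ Fin s) × Bool, (∀ g', w.1 = Sum.inr g' → (layer g').val < n) →
      LowOff K B ((l * (p - 1)) ^ n) fun ω => wireVal val w (σ ω) := by
    rintro n hn ⟨w, c⟩ hw
    unfold wireVal
    apply LowOff.xor
    rcases w with v | g
    · exact (hσ v B).mono (Nat.one_le_pow _ _ hp1)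
    · exact hn g (hw g rfl)
  have key : ∀ n : ℕ, ∀ g : Fin s, (layer g).val < n →
      LowOff K B ((l * (p - 1)) ^ n) fun ω => val g (σ ω) := by
    intro n
    induction n with
    | zero => intro g hg; omega
    | succ n ih =>
      intro g hg
      have hw : ∀ j : Fin (inp g).length, LowOff K B ((l * (p - 1)) ^ n)
          fun ω => wireVal val ((inp g).get j) (σ ω) := by
        intro j
        refine hwire n ih _ fun g' hg' => ?_
        have := hacyc g _ (List.get_mem _ j) g' hg'
        have : (layer g').val < (layer g).val := this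
        omega
      have hor := hβ' g B _ ((subset_biUnion_of_mem β (mem_univ g)).trans hB)
        fun j => (hw j).xor (decide (kind g = Gate.and))
      have hdeg : l * ((p - 1) * (l * (p - 1)) ^ n) = (l * (p - 1)) ^ (n + 1) := by ring
      rw [hdeg] at hor
      rcases hk : kind g with _ | _ | _
      · refine hor.not.congr fun ω => ?_
        rw [hval, hk]
        simp only [gateEval, decide_true, Bool.xor_true, Bool.not_eq_true', List.all_map]
        rw [Bool.eq_iff_iff]
        simp only [Bool.not_eq_true', decide_eq_false_iff_not, not_exists, Bool.not_eq_false,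
          List.all_eq_true, Function.comp, id]
        constructor
        · intro h w hw
          obtain ⟨j, rfl⟩ := List.get_of_mem hw
          exact h j
        · intro h j
          exact h _ (List.get_mem _ j)
      · refine hor.congr fun ω => ?_
        rw [hval, hk]
        simp only [gateEval, reduceCtorEq, decide_false, Bool.xor_false, List.any_map]
        rw [Bool.eq_iff_iff]
        simp only [decide_eq_true_eq, List.any_eq_true, Function.comp, id]
        constructor
        · rintro ⟨j, hj⟩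
          exact ⟨_, List.get_mem _ j, hj⟩
        · rintro ⟨w, hw, h⟩
          obtain ⟨j, rfl⟩ := List.get_of_mem hw
          exact ⟨j, h⟩
      · refine ((lowOff_mod (p := p) univ _ fun j _ => hw j).mono ?_).congr fun ω => ?_
        · rw [pow_succ, mul_comm]
          exact Nat.mul_le_mul_left _ (Nat.le_mul_of_pos_left _ hl)
        · rw [hval, hk]
          simp only [gateEval]
          rw [count_true_map]
  refine (hwire d (key d) out fun g' _ => (layer g').2).congr fun ω => (hout _).symm

/-- Approximation of the decision list extracted from a refutation. -/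
lemma Padded.approx [Fintype V] [DecidableEq V] {lv : V → ℕ} {φ : (V → Bool) → Prop} {m : ℕ}
    {f : (V → Bool) → Bool} (P : Padded lv φ m f) {p d k r : ℕ} [hp : Fact p.Prime] [CharP K p]
    {L : Fin r → (V → Bool) → Bool} (h : IsRefutation k lv φ L) (hk : k ≤ 2 * m + 2)
    {s : Fin r → ℕ} (hs : ∀ i, HasACmod p d (s i) (L i)) (σ : (ι → Bool) → V → Bool)
    (hσ : ∀ v B, LowOff K B 1 fun ω => σ ω v) (l : ℕ) (hl : 1 ≤ l) :
    ∃ β : Finset (ι → Bool), β.card * 2 ^ l ≤ (3 * (m + 1) * ∑ i, (s i + 1)) * 2 ^ Fintype.card ι ∧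
      ∀ B, β ⊆ B → LowOff K B (2 * (l * (p - 1)) ^ (d + 2)) fun ω => f (σ ω) := by
  classical
  have hp1 : 1 ≤ l * (p - 1) := by
    have := hp.out.two_le
    exact Nat.mul_pos hl (by omega)
  have hσ' : ∀ (c : Bool) (o : ℕ) v B, LowOff K B 1 fun ω => test lv (σ ω) c o v := by
    intro c o v B
    unfold test
    split_ifs
    · exact hσ v B
    · exact lowOff_const _ _
    · exact lowOff_const _ _
  choose β₁ hβ₁ hβ₁' using fun t : Fin r × Fin (m + 1) × Bool =>
    (hs t.1).approx (K := K) (fun ω => test lv (σ ω) t.2.2 t.2.1) (hσ' _ _) l hl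
  let NZ : Fin r → Prop := fun i => ∀ v ∈ Ess (L i), lv v < 2 * m + 2
  let g₂ : Fin r → Fin r × Fin (m + 1) → (ι → Bool) → Bool := fun i t ω =>
    if t.1 ≤ i ∧ NZ t.1 then !L t.1 (test lv (σ ω) false t.2) else false
  choose β₂ hβ₂ hβ₂' using fun i : Fin r => exists_bad_or (K := K) (p := p) (g₂ i) l
  let g₃ : Fin r × Fin (m + 1) → (ι → Bool) → Bool := fun t ω =>
    if NZ t.1 then (!L t.1 (test lv (σ ω) true t.2)) && !decide (∃ t', g₂ t.1 t' ω = true)
    else false
  obtain ⟨β₃, hβ₃, hβ₃'⟩ := exists_bad_or (K := K) (p := p) g₃ l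
  refine ⟨univ.biUnion β₁ ∪ univ.biUnion β₂ ∪ β₃, ?_, fun B hB => ?_⟩
  · have h1 : (univ.biUnion β₁).card * 2 ^ l ≤ (2 * (m + 1) * ∑ i, s i) * 2 ^ Fintype.card ι := by
      calc (univ.biUnion β₁).card * 2 ^ l ≤ (∑ g, (β₁ g).card) * 2 ^ l :=
            Nat.mul_le_mul_right _ card_biUnion_le
        _ = ∑ g, (β₁ g).card * 2 ^ l := sum_mul _ _ _
        _ ≤ ∑ t : Fin r × Fin (m + 1) × Bool, s t.1 * 2 ^ Fintype.card ι :=
            sum_le_sum fun g _ => hβ₁ g
        _ = _ := by
            rw [← sum_mul, Fintype.sum_prod_type, mul_sum]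
            congr 1
            refine sum_congr rfl fun i _ => ?_
            simp only [sum_const, card_univ, Fintype.card_prod, Fintype.card_fin,
              Fintype.card_bool, smul_eq_mul]
            ring
    have h2 : (univ.biUnion β₂).card * 2 ^ l ≤ r * 2 ^ Fintype.card ι := by
      calc (univ.biUnion β₂).card * 2 ^ l ≤ (∑ g, (β₂ g).card) * 2 ^ l :=
            Nat.mul_le_mul_right _ card_biUnion_le
        _ = ∑ g, (β₂ g).card * 2 ^ l := sum_mul _ _ _
        _ ≤ ∑ _g : Fin r, 2 ^ Fintype.card ι := sum_le_sum fun g _ => hβ₂ g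
        _ = _ := by simp
    have hr : 1 ≤ r := by
      obtain ⟨i, _⟩ := h.2
      exact i.pos
    have h3 : ∑ i, (s i + 1) = ∑ i, s i + r := by simp [sum_add_distrib]
    calc _ ≤ ((univ.biUnion β₁).card + (univ.biUnion β₂).card + β₃.card) * 2 ^ l :=
          Nat.mul_le_mul_right _ ((card_union_le _ _).trans
            (Nat.add_le_add_right (card_union_le _ _) _))
      _ ≤ (2 * (m + 1) * ∑ i, s i + r + 1) * 2 ^ Fintype.card ι := by
          rw [add_mul, add_mul, add_mul, add_mul, one_mul]
          exact add_le_add (add_le_add h1 h2) hβ₃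
      _ ≤ _ := by
          apply Nat.mul_le_mul_right
          rw [h3]
          nlinarith [Nat.zero_le (∑ i, s i), Nat.zero_le m, Nat.zero_le (m * ∑ i, s i),
            Nat.zero_le (m * r)]
  · have hB₁ : ∀ t, β₁ t ⊆ B := fun t => (subset_biUnion_of_mem β₁ (mem_univ t)).trans
      ((subset_union_left.trans subset_union_left).trans hB)
    have hB₂ : ∀ t, β₂ t ⊆ B := fun t => (subset_biUnion_of_mem β₂ (mem_univ t)).trans
      ((subset_union_right.trans subset_union_left).trans hB)
    have hB₃ : β₃ ⊆ B := subset_union_right.trans hB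
    have h2 : ∀ i t, LowOff K B ((l * (p - 1)) ^ d) (g₂ i t) := by
      intro i t
      simp only [g₂]
      split_ifs
      · exact (hβ₁' (t.1, t.2, false) B (hB₁ _)).not
      · exact (lowOff_const _ _).mono (Nat.one_le_pow _ _ hp1)
    have h3 : ∀ t, LowOff K B (2 * (l * (p - 1)) ^ (d + 1)) (g₃ t) := by
      intro t
      simp only [g₃]
      split_ifs
      · refine ((hβ₁' (t.1, t.2, true) B (hB₁ _)).not.and
          (hβ₂' t.1 B _ (hB₂ _) (h2 t.1)).not).mono ?_
        have : l * ((p - 1) * (l * (p - 1)) ^ d) = (l * (p - 1)) ^ (d + 1) := by ring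
        rw [this, two_mul]
        exact Nat.add_le_add_right (Nat.pow_le_pow_right hp1 (by omega)) _
      · exact (lowOff_const _ _).mono (by
          have := Nat.one_le_pow (d + 1) _ hp1
          omega)
    refine ((hβ₃' B _ hB₃ h3).mono (le_of_eq (by ring))).congr fun ω => ?_
    rw [Bool.eq_iff_iff, P.decision_list h hk, decide_eq_true_eq]
    constructor
    · rintro ⟨⟨i, o⟩, hio⟩
      simp only [g₃] at hio
      split_ifs at hio with hNZ
      simp only [Bool.and_eq_true, Bool.not_eq_true', decide_eq_false_iff_not, not_exists] at hio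
      refine ⟨i, o, Nat.lt_succ_iff.1 o.2, hNZ, hio.1, fun i' hi' o' ho' hNZ' => ?_⟩
      have := hio.2 (i', ⟨o', Nat.lt_succ_iff.2 ho'⟩)
      simp only [g₂] at this
      rw [if_pos ⟨hi', hNZ'⟩] at this
      simpa using this
    · rintro ⟨i, o, ho, hNZ, hi, hall⟩
      refine ⟨(i, ⟨o, Nat.lt_succ_iff.2 ho⟩), ?_⟩
      simp only [g₃]
      rw [if_pos hNZ]
      simp only [Bool.and_eq_true, Bool.not_eq_true', decide_eq_false_iff_not, not_exists]
      refine ⟨hi, fun t => ?_⟩
      simp only [g₂]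
      split_ifs with ht
      · simp [hall t.1 ht.1 t.2 (Nat.lt_succ_iff.1 t.2.2) ht.2]
      · simp

lemma exists_root_unity (p q : ℕ) [Fact p.Prime] (hq : 2 ≤ q) (hpq : ¬ p ∣ q) :
    ∃ w : AlgebraicClosure (ZMod p), w ≠ 0 ∧ w ≠ 1 ∧ w ^ q = 1 := by
  let f : Polynomial (AlgebraicClosure (ZMod p)) := ∑ i ∈ range q, Polynomial.X ^ i
  have hdeg : f.degree ≠ 0 := by
    intro h
    have h1 := Polynomial.eq_C_of_degree_eq_zero h
    have h2 : f.coeff 1 = 1 := by
      simp only [f, Polynomial.finsetSum_coeff, Polynomial.coeff_X_pow]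
      rw [sum_ite_eq]
      simp; omega
    rw [h1, Polynomial.coeff_C_of_ne_zero (by norm_num)] at h2
    exact zero_ne_one h2
  obtain ⟨w, hw⟩ := IsAlgClosed.exists_root f hdeg
  have hw' : ∑ i ∈ range q, w ^ i = 0 := by
    simpa [f, Polynomial.IsRoot, Polynomial.eval_finsetSum] using hw
  have hq1 : w ^ q = 1 := by
    have := geom_sum_mul w q
    rw [hw', zero_mul] at this
    exact (sub_eq_zero.1 this.symm)
  refine ⟨w, ?_, ?_, hq1⟩
  · rintro rfl
    rw [zero_pow (by omega)] at hq1
    exact zero_ne_one hq1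
  · rintro rfl
    simp only [one_pow, sum_const, card_range, nsmul_eq_mul, mul_one] at hw'
    exact hpq ((CharP.cast_eq_zero_iff _ p q).1 hw')

/-- Smolensky's bound in the form needed here. -/
lemma degree_bound {p q n D T l : ℕ} [Fact p.Prime] (hq : 2 ≤ q) (hpq : ¬ p ∣ q)
    (hl : 4 * (q * T) ≤ 2 ^ l)
    (h : ∀ ρ < q, ∃ β : Finset (Fin (2 * n + 1) → Bool),
      β.card * 2 ^ l ≤ T * 2 ^ Fintype.card (Fin (2 * n + 1)) ∧
      ∀ B, β ⊆ B → LowOff (AlgebraicClosure (ZMod p)) B D fun ω =>
        decide ((univ.filter fun i => ω i = true).card % q = ρ)) :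
    2 * n + 3 ≤ 16 * D ^ 2 := by
  classical
  obtain ⟨w, hw0, hw1, hwq⟩ := exists_root_unity p q hq hpq
  choose! β hβ hβ' using h
  let B := (range q).biUnion β
  have hB : 4 * B.card ≤ 2 ^ (2 * n + 1) := by
    have h1 : B.card * 2 ^ l ≤ q * T * 2 ^ (2 * n + 1) := by
      calc B.card * 2 ^ l ≤ (∑ g ∈ range q, (β g).card) * 2 ^ l :=
            Nat.mul_le_mul_right _ card_biUnion_le
        _ = ∑ g ∈ range q, (β g).card * 2 ^ l := sum_mul _ _ _
        _ ≤ ∑ _g ∈ range q, T * 2 ^ (2 * n + 1) :=
            sum_le_sum fun g hg => by simpa using hβ g (mem_range.1 hg)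
        _ = _ := by simp [mul_assoc]
    have hpos : 0 < 2 ^ l := by positivity
    refine Nat.le_of_mul_le_mul_right ?_ hpos
    calc 4 * B.card * 2 ^ l = 4 * (B.card * 2 ^ l) := by ring
      _ ≤ 4 * (q * T * 2 ^ (2 * n + 1)) := Nat.mul_le_mul_left _ h1
      _ = (4 * (q * T)) * 2 ^ (2 * n + 1) := by ring
      _ ≤ 2 ^ l * 2 ^ (2 * n + 1) := Nat.mul_le_mul_right _ hl
      _ = _ := by ring
  choose! Q hQ hQ' using fun ρ (hρ : ρ < q) =>
    hβ' ρ hρ B (subset_biUnion_of_mem β (mem_range.2 hρ))
  have hG := smolensky (k := n) (D := D) (ι := Fin (2 * n + 1)) (by simp) w hw0 hw1 Bᶜ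
    (∑ ρ ∈ range q, w ^ ρ • Q ρ)
    (Submodule.sum_mem _ fun ρ hρ => Submodule.smul_mem _ _ (hQ ρ (mem_range.1 hρ))) (by
      intro ω hω
      rw [prod_ite, prod_const, prod_const_one, mul_one, Finset.sum_apply,
        sum_eq_single ((univ.filter fun i => ω i = true).card % q)]
      · rw [Pi.smul_apply, hQ' _ (Nat.mod_lt _ (by omega)) ω (mem_compl.1 hω)]
        simp only [decide_true, if_true, smul_eq_mul, mul_one]
        exact (pow_eq_pow_mod _ hwq).symm
      · intro ρ hρ hne
        rw [Pi.smul_apply, hQ' _ (mem_range.1 hρ) ω (mem_compl.1 hω)]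
        simp [hne.symm]
      · intro h
        exact absurd (mem_range.2 (Nat.mod_lt _ (by omega))) h)
  apply degree_lower
  rw [card_compl] at hG
  simp only [Fintype.card_fun, Fintype.card_bool, Fintype.card_fin] at hG
  have h4 : 2 ^ (2 * n + 1) = 2 * 4 ^ n := by rw [pow_succ, pow_mul]; ring
  omega

end Pool.Agent.MP_a2d820_lc
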