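import Pool.Agent.MP_a2d820_lc.Defs

/-!
Strategies, soundness, and extraction of a decision list from a refutation of a padded formula.
-/

namespace Pool.Agent.MP_a2d820_lc

variable {V : Type}

lemma ess_dep [Fintype V] [DecidableEq V] (L : (V → Bool) → Bool) {a a' : V → Bool}
    (h : ∀ v ∈ Ess L, a v = a' v) : L a = L a' := by
  have key : ∀ (s : Finset V) (a : V → Bool), (∀ v ∈ Ess L, a v = a' v) →
      (∀ v ∉ s, a v = a' v) → L a = L a' := by
    intro s
    induction s using Finset.induction_on with
    | empty => intro a _ h; rw [funext fun v => h v (by simp)]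
    | insert v s _ ih =>
      intro a h1 h2
      have h3 : L (Function.update a v (a' v)) = L a' := by
        apply ih
        · intro w hw
          by_cases hwv : w = v
          · subst hwv; simp
          · rw [Function.update_of_ne hwv]; exact h1 w hw
        · intro w hw
          by_cases hwv : w = v
          · subst hwv; simp
          · rw [Function.update_of_ne hwv]; exact h2 w (by simp [hwv, hw])
      rw [← h3]
      by_cases hv : v ∈ Ess L
      · rw [← h1 v hv, Function.update_eq_self]
      · have h4 : L (Function.update a v true) = L (Function.update a v false) := by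
          by_contra h4
          exact hv ⟨a, h4⟩
        have h5 : ∀ c, L (Function.update a v c) = L (Function.update a v false) := by
          intro c; cases c
          · rfl
          · exact h4
        rw [h5 (a' v), ← h5 (a v), Function.update_eq_self]
  exact key Finset.univ a h (by simp)

/-- A winning strategy of the existential player gives truth. -/
lemma qtrue_of_strategy {k : ℕ} {b : V → ℕ} (hb : ∀ v, b v < k) {ψ : (V → Bool) → Prop}
    (τ : (V → Bool) → V → Bool)
    (hτ : ∀ c c' v, (∀ u, Odd (b u) → b u < b v → c u = c' u) → τ c v = τ c' v)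
    (hψ : ∀ c, ψ fun v => if Odd (b v) then c v else τ c v) : QTrue k b ψ := by
  have key : ∀ (r j : ℕ) (c : V → Bool), j + r = k →
      (∀ v, b v < j → ¬ Odd (b v) → c v = τ c v) → HoldsFrom b ψ r j c := by
    intro r
    induction r with
    | zero =>
      intro j c hj hc
      have : c = fun v => if Odd (b v) then c v else τ c v := by
        funext v
        split_ifs with h
        · rfl
        · exact hc v (by have := hb v; omega) h
      change ψ c
      rw [this]
      exact hψ c
    | succ r ih =>
      intro j c hj hc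
      unfold HoldsFrom
      split_ifs with hev
      · refine ⟨fun v => if b v = j then τ c v else c v, fun v hv => by simp [hv], ?_⟩
        apply ih _ _ (by omega)
        intro v hv hodd
        have h1 : τ (fun v => if b v = j then τ c v else c v) v = τ c v := by
          apply hτ
          intro u hu hu'
          have : b u ≠ j := by omega
          simp [this]
        rw [h1]
        by_cases h : b v = j
        · simp [h]
        · simp only [h, if_false]
          exact hc v (by omega) hodd
      · intro a' ha'
        apply ih _ _ (by omega)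
        intro v hv hodd
        have hvj : b v ≠ j := by
          rintro rfl
          exact hodd (Nat.not_even_iff_odd.1 hev)
        rw [ha' v hvj, hc v (by omega) hodd]
        apply hτ
        intro u _ hu'
        exact (ha' u (by omega)).symm
  exact key k 0 _ (by simp) (by simp)

/-- Truth gives Skolem functions for the existential player. -/
lemma exists_strategy {b : V → ℕ} {ψ : (V → Bool) → Prop} (r : ℕ) :
    ∀ (j : ℕ) (a : V → Bool), HoldsFrom b ψ r j a →
    ∃ τ : (V → Bool) → V → Bool,
      (∀ c c' v, (∀ u, Odd (b u) → j ≤ b u → b u < b v → c u = c' u) → τ c v = τ c' v) ∧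
      ∀ c, ψ fun v => if j ≤ b v ∧ b v < j + r then (if Odd (b v) then c v else τ c v)
        else a v := by
  classical
  induction r with
  | zero =>
    intro j a h
    refine ⟨fun _ _ => false, fun _ _ _ _ => rfl, fun c => ?_⟩
    have : (fun v => if j ≤ b v ∧ b v < j + 0 then (if Odd (b v) then c v else false)
        else a v) = a := by
      funext v
      rw [if_neg (by omega)]
    rw [this]
    exact h
  | succ r ih =>
    intro j a h
    unfold HoldsFrom at h
    split_ifs at h with hev
    · obtain ⟨a', ha', h⟩ := h
      obtain ⟨τ, hτ, hψ⟩ := ih _ _ h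
      refine ⟨fun c v => if b v = j then a' v else τ c v, ?_, fun c => ?_⟩
      · intro c c' v hc
        by_cases hv : b v = j
        · simp [hv]
        · simp only [hv, if_false]
          exact hτ c c' v fun u hu hu1 hu2 => hc u hu (by omega) hu2
      · convert hψ c using 2 with v
        by_cases hv : b v = j
        · have h1 : ¬ Odd j := Nat.not_odd_iff_even.2 hev
          simp [hv, h1]
        · by_cases h2 : j + 1 ≤ b v ∧ b v < j + 1 + r
          · rw [if_pos h2, if_pos (by omega)]
            simp [hv]
          · rw [if_neg h2, if_neg (by omega), ha' v hv]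
    · choose τ hτ hψ using fun c : V → Bool =>
        ih (j + 1) (fun v => if b v = j then c v else a v) (h _ fun v hv => by simp [hv])
      have hodd : Odd j := Nat.not_even_iff_odd.1 hev
      let res : (V → Bool) → V → Bool := fun c v => if b v = j then c v else false
      refine ⟨fun c v => if j < b v then τ (res c) c v else false, ?_, fun c => ?_⟩
      · intro c c' v hc
        by_cases hv : j < b v
        · simp only [hv, if_true]
          have : res c = res c' := by
            funext u
            simp only [res]
            split_ifs with hu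
            · exact hc u (hu ▸ hodd) (by omega) (by omega)
            · rfl
          rw [this]
          exact hτ _ c c' v fun u hu hu1 hu2 => hc u hu (by omega) hu2
        · simp [hv]
      · convert hψ (res c) c using 2 with v
        by_cases hv : b v = j
        · simp [hv, hodd, res]
        · by_cases h2 : j + 1 ≤ b v ∧ b v < j + 1 + r
          · rw [if_pos h2, if_pos (by omega)]
            simp [show j < b v by omega]
          · rw [if_neg h2, if_neg (by omega), if_neg hv]

/-- Soundness: a formula with a refutation is false. -/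
theorem IsRefutation.sound [Fintype V] [DecidableEq V] {k K : ℕ} {lv : V → ℕ}
    (hlv : ∀ v, lv v < K) {ψ : (V → Bool) → Prop} {r : ℕ} {L : Fin r → (V → Bool) → Bool}
    (h : IsRefutation k lv ψ L) : ¬ QTrue K lv ψ := by
  intro ht
  obtain ⟨τ, hτ, hψ⟩ := exists_strategy K 0 _ ht
  let π : (V → Bool) → V → Bool := fun c v => if Odd (lv v) then c v else τ c v
  have hπ : ∀ c, ψ (π c) := by
    intro c
    convert hψ c using 2 with v
    simp [π, hlv v]
  have key : ∀ (n : ℕ) (i : Fin r), i.val = n → ∀ c, L i (π c) = true := by
    intro n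
    induction n using Nat.strong_induction_on with
    | _ n ih =>
      intro i hi γ
      by_contra hfalse
      obtain ⟨b, hb, hq⟩ := h.1 i
      apply hq
      let mix : (V → Bool) → V → Bool := fun c v => if Odd (b v) then c v else γ v
      refine qtrue_of_strategy hb.1 (fun c v => if Odd (lv v) then γ v else τ (mix c) v) ?_
        fun c => ?_
      · intro c c' v hc
        by_cases hv : Odd (lv v)
        · simp [hv]
        · simp only [hv, if_false]
          apply hτ
          intro u hu _ huv
          simp only [mix]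
          split_ifs with hu'
          · exact hc u hu' ((hb.2 u hu').2.2.2 v (Nat.not_odd_iff_even.1 hv) huv)
          · rfl
      · have hplay : (fun v => if Odd (b v) then c v else
            if Odd (lv v) then γ v else τ (mix c) v) = π (mix c) := by
          funext v
          by_cases hv : Odd (b v)
          · simp [π, mix, hv, (hb.2 v hv).1]
          · simp [π, mix, hv]
        rw [hplay]
        refine ⟨hπ _, fun j hj => ih j (hi ▸ hj) j rfl _, ?_⟩
        rw [ess_dep (L i) (a' := π γ)]
        · simpa using hfalse
        · intro v hv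
          simp only [π]
          split_ifs with hv'
          · simp only [mix]
            rw [if_neg fun h => (hb.2 v h).2.1 hv]
          · apply hτ
            intro u hu _ huv
            simp only [mix]
            rw [if_neg]
            intro h
            have := (hb.2 u h).2.2.1 v hv
            omega
  obtain ⟨i, hi⟩ := h.2
  have := key i i rfl fun _ => false
  rw [hi] at this
  exact absurd this (by simp)

/-- The structure of a padded formula: level `0` holds the input, the odd levels `2 j + 1`
(`j ≤ m`) hold single universal variables, the even levels `2 j` (`1 ≤ j ≤ m`) hold single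
existential variables, and the existential player wins the remaining game with the Skolem
functions `ζ` as soon as some universal variable misses its target. -/
structure Padded (lv : V → ℕ) (φ : (V → Bool) → Prop) (m : ℕ) (f : (V → Bool) → Bool) where
  u : ℕ → V
  y : ℕ → V
  ζ : (V → Bool) → V → Bool
  hu : ∀ j ≤ m, lv (u j) = 2 * j + 1
  hu' : ∀ j ≤ m, ∀ v, lv v = 2 * j + 1 → v = u j
  hy : ∀ j ≤ m, 1 ≤ j → lv (y j) = 2 * j
  hy' : ∀ j ≤ m, 1 ≤ j → ∀ v, lv v = 2 * j → v = y j
  hf : ∀ a a' : V → Bool, (∀ v, lv v = 0 → a v = a' v) → f a = f a'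
  hζ : ∀ (a a' : V → Bool) (z : V), 2 * m + 2 ≤ lv z → Even (lv z) →
    (∀ v, lv v < lv z → (lv v < 2 * m + 2 ∨ Odd (lv v)) → a v = a' v) → ζ a z = ζ a' z
  hwin : ∀ a : V → Bool, (∀ z, 2 * m + 2 ≤ lv z → Even (lv z) → a z = ζ a z) →
    (∃ j ≤ m, a (u j) ≠ if j = 0 then f a else a (y j)) → φ a
  hz : ∃ z, 2 * m + 2 ≤ lv z ∧ Even (lv z)

/-- Test plays. -/
def test (lv : V → ℕ) (x : V → Bool) (c : Bool) (o : ℕ) : V → Bool := fun v =>
  if lv v = 0 then x v else if lv v = 1 then c else decide (lv v = 2 * o ∨ lv v = 2 * o + 1)

namespace Padded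

variable {lv : V → ℕ} {φ : (V → Bool) → Prop} {m : ℕ} {f : (V → Bool) → Bool}
  (P : Padded lv φ m f)

/-- Plays consistent with the Skolem functions. -/
def Closed (a : V → Bool) : Prop := ∀ z, 2 * m + 2 ≤ lv z → Even (lv z) → a z = P.ζ a z

/-- Closed plays on the input `x` whose first missed target has index at most `W`. -/
def Good (x : V → Bool) (W : ℕ) (a : V → Bool) : Prop :=
  (∀ v, lv v = 0 → a v = x v) ∧ P.Closed a ∧ ∃ w ≤ W,
    (a (P.u w) ≠ if w = 0 then f a else a (P.y w)) ∧
    ∀ j < w, (a (P.u j) = if j = 0 then f a else a (P.y j)) ∧ (1 ≤ j → a (P.y j) = false)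

lemma qtrue_of_g {F : Set V} {k : ℕ} {b : V → ℕ} (hb : IsRelax lv F k b)
    {ψ : (V → Bool) → Prop} (g : (V → Bool) → V → Bool)
    (hg : ∀ c c' v, (∀ u, Odd (b u) → b u < b v → lv u < 2 * m + 2 → c u = c' u) →
      g c v = g c' v)
    (hψ : ∀ c π : V → Bool, (∀ v, ¬ (2 * m + 2 ≤ lv v ∧ Even (lv v)) →
      π v = if Odd (b v) then c v else g c v) → P.Closed π → ψ π) : QTrue k b ψ := by
  classical
  let mix : (V → Bool) → V → Bool := fun c v => if Odd (b v) then c v else g c v
  refine qtrue_of_strategy hb.1
    (fun c v => if 2 * m + 2 ≤ lv v ∧ Even (lv v) then P.ζ (mix c) v else g c v) ?_ fun c => ?_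
  · intro c c' v hc
    by_cases hv : 2 * m + 2 ≤ lv v ∧ Even (lv v)
    · simp only [hv, and_self, if_true]
      apply P.hζ _ _ _ hv.1 hv.2
      intro w hw _
      simp only [mix]
      split_ifs with hw'
      · exact hc w hw' ((hb.2 w hw').2.2.2 v hv.2 hw)
      · apply hg
        intro u hu _ hu2
        exact hc u hu ((hb.2 u hu).2.2.2 v hv.2 (by omega))
    · simp only [hv, if_false]
      exact hg c c' v fun u hu hu1 _ => hc u hu hu1
  · have h1 : ∀ v, ¬ (2 * m + 2 ≤ lv v ∧ Even (lv v)) →
        (if Odd (b v) then c v else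
          if 2 * m + 2 ≤ lv v ∧ Even (lv v) then P.ζ (mix c) v else g c v) = mix c v := by
      intro v hv
      simp only [mix, hv, if_false]
    refine hψ c _ h1 ?_
    intro z hz1 hz2
    have hbz : ¬ Odd (b z) := fun h => Nat.not_odd_iff_even.2 hz2 (hb.2 z h).1
    simp only [hbz, if_false, hz1, hz2, and_self, if_true]
    apply P.hζ _ _ _ hz1 hz2
    intro v _ hv
    refine (h1 v ?_).symm
    rintro ⟨h2, h3⟩
    rcases hv with hv | hv
    · omega
    · exact Nat.not_odd_iff_even.2 h3 hv

lemma good_sound [Fintype V] [DecidableEq V] {k r : ℕ} {L : Fin r → (V → Bool) → Bool}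
    (h : IsRefutation k lv φ L) (x : V → Bool) (j₀ W : ℕ) (hW : W ≤ m)
    (H0 : ∀ i : Fin r, i.val < j₀ → (∀ v ∈ Ess (L i), lv v = 0) → L i x = true)
    (HW : W = 0 ∨ ∀ i : Fin r, i.val < j₀ → (∀ v ∈ Ess (L i), lv v < 2 * m + 2) →
      ∀ o ≤ m, L i (test lv x (f x) o) = true) :
    ∀ i : Fin r, i.val < j₀ → ∀ γ, P.Good x W γ → L i γ = true := by
  have key : ∀ (n : ℕ) (i : Fin r), i.val = n → i.val < j₀ → ∀ γ, P.Good x W γ →
      L i γ = true := by
    intro n
    induction n using Nat.strong_induction_on with
    | _ n ih =>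
      intro i hi hij γ hγ
      obtain ⟨hγx, hγc, w, hwW, hw, hw'⟩ := hγ
      by_cases hA : ∃ v ∈ Ess (L i), 2 * w + 1 ≤ lv v
      · by_contra hfalse
        obtain ⟨v₀, hv₀, hv₀'⟩ := hA
        obtain ⟨b, hb, hq⟩ := h.1 i
        apply hq
        have hlow : ∀ v, Odd (b v) → 2 * w + 1 < lv v := by
          intro v hv
          obtain ⟨_, h2, h3, _⟩ := hb.2 v hv
          have h4 := h3 v₀ hv₀
          by_contra h5
          have h6 : v = P.u w := P.hu' w (by omega) v (by omega)
          have h7 : v₀ = P.u w := P.hu' w (by omega) v₀ (by omega)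
          exact h2 (h6 ▸ h7 ▸ hv₀)
        refine P.qtrue_of_g hb (fun _ => γ) (fun _ _ _ _ => rfl) fun c π hπ hπc => ?_
        have hagree : ∀ v, lv v ≤ 2 * w + 1 → π v = γ v := by
          intro v hv
          rw [hπ v (by omega), if_neg fun h => by have := hlow v h; omega]
        have hfπ : f π = f γ := P.hf _ _ fun v hv => hagree v (by omega)
        have htgt : ∀ j ≤ w, (if j = 0 then f π else π (P.y j)) =
            if j = 0 then f γ else γ (P.y j) := by
          intro j hj
          split_ifs with hj0
          · exact hfπ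
          · exact hagree _ (by rw [P.hy j (by omega) (by omega)]; omega)
        have hu : ∀ j ≤ w, π (P.u j) = γ (P.u j) := fun j hj =>
          hagree _ (by rw [P.hu j (by omega)]; omega)
        have hgood : P.Good x W π := by
          refine ⟨fun v hv => by rw [hagree v (by omega), hγx v hv], hπc, w, hwW, ?_, ?_⟩
          · rw [htgt w le_rfl, hu w le_rfl]; exact hw
          · intro j hj
            refine ⟨by rw [htgt j hj.le, hu j hj.le]; exact (hw' j hj).1, fun hj1 => ?_⟩
            rw [hagree _ (by rw [P.hy j (by omega) hj1]; omega)]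
            exact (hw' j hj).2 hj1
        refine ⟨P.hwin π hπc ⟨w, by omega, by rw [htgt w le_rfl, hu w le_rfl]; exact hw⟩,
          fun j hj => ih j (hi ▸ hj) j rfl (lt_trans hj hij) π hgood, ?_⟩
        rw [ess_dep (L i) (a' := γ)]
        · simpa using hfalse
        · intro v hv
          have hnot : ∀ v', lv v' < lv v → ¬ Odd (b v') := by
            intro v' hv' h
            have := (hb.2 v' h).2.2.1 v hv
            omega
          by_cases hZ : 2 * m + 2 ≤ lv v ∧ Even (lv v)
          · rw [hπc v hZ.1 hZ.2, hγc v hZ.1 hZ.2]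
            apply P.hζ _ _ _ hZ.1 hZ.2
            intro v' hv' hv''
            rw [hπ v', if_neg (hnot v' hv')]
            rintro ⟨h2, h3⟩
            rcases hv'' with h4 | h4
            · omega
            · exact Nat.not_odd_iff_even.2 h3 h4
          · rw [hπ v hZ, if_neg fun h => (hb.2 v h).2.1 hv]
      · push Not at hA
        by_cases hw0 : w = 0
        · have h0 : ∀ v ∈ Ess (L i), lv v = 0 := fun v hv => by have := hA v hv; omega
          rw [ess_dep (L i) (a' := x) fun v hv => hγx v (h0 v hv)]
          exact H0 i hij h0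
        · rcases HW with HW | HW
          · omega
          have hfγ : f γ = f x := P.hf _ _ hγx
          rw [← HW i hij (fun v hv => by have := hA v hv; omega)
            (if γ (P.y w) = true then w else 0) (by split_ifs <;> omega)]
          apply ess_dep
          intro v hv
          have hv' := hA v hv
          unfold test
          split_ifs with h0 h1 hyw
          · exact hγx v h0
          · have := (hw' 0 (by omega)).1
            rw [P.hu' 0 (by omega) v (by omega), this, if_pos rfl, hfγ]
          all_goals
            obtain ⟨j, hj | hj⟩ := Nat.even_or_odd' (lv v)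
            · have hvy := P.hy' j (by omega) (by omega) v hj
              by_cases hjw : j = w
              · subst hjw
                rw [hvy] at hj ⊢
                simp [hyw, hj, hw0]
              · rw [hvy, (hw' j (by omega)).2 (by omega), P.hy j (by omega) (by omega)]
                symm
                simp only [decide_eq_false_iff_not]
                omega
            · have hvu := P.hu' j (by omega) v hj
              have h2 := hw' j (by omega)
              rw [hvu, h2.1, if_neg (by omega), h2.2 (by omega), P.hu j (by omega)]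
              symm
              simp only [decide_eq_false_iff_not]
              omega
  exact fun i => key i i rfl

lemma exists_blind {F : Set V} {k : ℕ} {b : V → ℕ} (hb : IsRelax lv F k b) (hk : k ≤ 2 * m + 2) :
    ∃ w ≤ m, ¬ Odd (b (P.u w)) ∨ (1 ≤ w ∧ b (P.u w) < b (P.y w)) := by
  by_contra hcon
  push Not at hcon
  have key : ∀ j ≤ m, 2 * j + 1 ≤ b (P.u j) := by
    intro j
    induction j with
    | zero => intro hj; have := (hcon 0 hj).1; rw [Nat.odd_iff] at this; omega
    | succ j ih =>
      intro hj
      have h1 := ih (by omega)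
      have h2 := (hb.2 _ (hcon j (by omega)).1).2.2.2 (P.y (j + 1))
        (by rw [P.hy _ hj (by omega)]; simp)
        (by rw [P.hy _ hj (by omega), P.hu j (by omega)]; omega)
      have h3 := (hcon (j + 1) hj).2 (by omega)
      have h4 := (hcon (j + 1) hj).1
      have h5 : ¬ Odd (b (P.y (j + 1))) := fun h => by
        have := (hb.2 _ h).1
        rw [P.hy _ hj (by omega), Nat.odd_iff] at this
        omega
      rw [Nat.odd_iff] at h4 h5
      omega
  obtain ⟨z, hz1, hz2⟩ := P.hz
  have h1 := (hb.2 _ (hcon m le_rfl).1).2.2.2 z hz2 (by rw [P.hu m le_rfl]; omega)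
  have h2 := key m le_rfl
  have h3 := hb.1 z
  omega

include P in
lemma exists_falsified [Fintype V] [DecidableEq V] {k r : ℕ} {L : Fin r → (V → Bool) → Bool}
    (h : IsRefutation k lv φ L) (hk : k ≤ 2 * m + 2) (x : V → Bool) (j₀ : Fin r)
    (hj₀ : (∀ v ∈ Ess (L j₀), lv v = 0) ∧ L j₀ x = false)
    (H0 : ∀ i : Fin r, i.val < j₀ → (∀ v ∈ Ess (L i), lv v = 0) → L i x = true) :
    ∃ i : Fin r, i < j₀ ∧ (∀ v ∈ Ess (L i), lv v < 2 * m + 2) ∧
      ∃ o ≤ m, L i (test lv x (f x) o) = false := by
  classical
  by_contra hcon
  have HW : ∀ i : Fin r, i.val < j₀ → (∀ v ∈ Ess (L i), lv v < 2 * m + 2) →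
      ∀ o ≤ m, L i (test lv x (f x) o) = true := by
    intro i hi h1 o ho
    by_contra h2
    exact hcon ⟨i, hi, h1, o, ho, by simpa using h2⟩
  have hs := P.good_sound h x j₀ m le_rfl H0 (Or.inr HW)
  obtain ⟨b, hb, hq⟩ := h.1 j₀
  apply hq
  obtain ⟨w, hw, hblind⟩ := P.exists_blind hb hk
  refine P.qtrue_of_g hb (fun c v => if lv v = 0 then x v else
    if lv v = 2 * w + 1 then (if w = 0 then !f x else true) else
    if lv v = 2 * w ∧ Odd (b (P.u w)) then !c (P.u w) else false) ?_ fun c π hπ hπc => ?_
  · intro c c' v hc
    split_ifs with h1 h2 h3 h4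
    · rfl
    · rfl
    · rfl
    · rcases hblind with hb' | hb'
      · exact absurd h4.2 hb'
      · rw [hc (P.u w) h4.2 (by rw [P.hy' w hw hb'.1 v h4.1]; exact hb'.2)
          (by rw [P.hu w hw]; omega)]
    · rfl
  · have heven : ∀ v, Even (lv v) → ¬ Odd (b v) := fun v hv h =>
      Nat.not_odd_iff_even.2 hv (hb.2 v h).1
    have hx : ∀ v, lv v = 0 → π v = x v := by
      intro v hv
      rw [hπ v (by omega), if_neg (heven v (by simp [hv])), if_pos hv]
    have hfπ : f π = f x := P.hf _ _ hx
    have hy : ∀ j ≤ m, 1 ≤ j → π (P.y j) =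
        if j = w ∧ Odd (b (P.u w)) then !c (P.u w) else false := by
      intro j hj hj1
      have h1 := P.hy j hj hj1
      rw [hπ _ (by omega), if_neg (heven _ (by simp [h1])), if_neg (by omega), if_neg (by omega)]
      congr 1
      rw [h1]
      apply propext
      constructor
      · rintro ⟨h2, h3⟩; exact ⟨by omega, h3⟩
      · rintro ⟨h2, h3⟩; exact ⟨by omega, h3⟩
    have hwrong : π (P.u w) ≠ if w = 0 then f π else π (P.y w) := by
      have h1 := P.hu w hw
      rw [hπ _ (by omega)]
      by_cases hodd : Odd (b (P.u w))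
      · rcases hblind with hb' | hb'
        · exact absurd hodd hb'
        · rw [if_pos hodd, if_neg (by omega), hy w hw hb'.1, if_pos ⟨rfl, hodd⟩]
          simp
      · rw [if_neg hodd, if_neg (by omega), if_pos h1]
        by_cases hw0 : w = 0
        · simp [hw0, hfπ]
        · rw [if_neg hw0, if_neg hw0, hy w hw (by omega), if_neg (fun h => hodd h.2)]
          simp
    have hex : ∃ j, π (P.u j) ≠ if j = 0 then f π else π (P.y j) := ⟨w, hwrong⟩
    have hle : Nat.find hex ≤ w := Nat.find_min' hex hwrong
    have hgood : P.Good x m π := by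
      refine ⟨hx, hπc, Nat.find hex, by omega, Nat.find_spec hex, fun j hj => ⟨?_, fun hj1 => ?_⟩⟩
      · have := Nat.find_min hex hj
        simpa using this
      · rw [hy j (by omega) hj1, if_neg (by omega)]
    refine ⟨P.hwin π hπc ⟨w, hw, hwrong⟩, fun j hj => hs j hj π hgood, ?_⟩
    rw [ess_dep (L j₀) (a' := x) fun v hv => hx v (hj₀.1 v hv)]
    exact hj₀.2

include P in
lemma wrong_not_falsified [Fintype V] [DecidableEq V] {k r : ℕ}
    {L : Fin r → (V → Bool) → Bool} (h : IsRefutation k lv φ L) (x : V → Bool) (j₀ : ℕ)
    (H0 : ∀ i : Fin r, i.val < j₀ → (∀ v ∈ Ess (L i), lv v = 0) → L i x = true)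
    (i : Fin r) (hi : i.val < j₀) (hZ : ∀ v ∈ Ess (L i), lv v < 2 * m + 2) (o : ℕ) :
    L i (test lv x (!f x) o) = true := by
  classical
  let t := test lv x (!f x) o
  let γ : V → Bool := fun v => if 2 * m + 2 ≤ lv v ∧ Even (lv v) then P.ζ t v else t v
  have hγt : ∀ v, (lv v < 2 * m + 2 ∨ Odd (lv v)) → γ v = t v := by
    intro v hv
    simp only [γ]
    rw [if_neg]
    rintro ⟨h2, h3⟩
    rcases hv with h4 | h4
    · omega
    · exact Nat.not_odd_iff_even.2 h3 h4
  have hx : ∀ v, lv v = 0 → γ v = x v := by
    intro v hv
    rw [hγt v (by omega)]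
    simp [t, test, hv]
  have hgood : P.Good x 0 γ := by
    refine ⟨hx, ?_, 0, le_rfl, ?_, by simp⟩
    · intro z hz1 hz2
      have : γ z = P.ζ t z := by simp [γ, hz1, hz2]
      rw [this]
      exact P.hζ _ _ _ hz1 hz2 fun v _ hv => (hγt v hv).symm
    · have h1 := P.hu 0 (by omega)
      rw [if_pos rfl, hγt _ (by omega), P.hf _ _ hx]
      simp [t, test, h1]
  rw [← P.good_sound h x j₀ 0 (by omega) H0 (Or.inl rfl) i hi γ hgood]
  exact ess_dep _ fun v hv => (hγt v (Or.inl (hZ v hv))).symm

include P in
/-- A refutation of a padded formula yields a decision list for `f`. -/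
theorem decision_list [Fintype V] [DecidableEq V] {k r : ℕ} {L : Fin r → (V → Bool) → Bool}
    (h : IsRefutation k lv φ L) (hk : k ≤ 2 * m + 2) (x : V → Bool) :
    f x = true ↔ ∃ i : Fin r, ∃ o ≤ m, (∀ v ∈ Ess (L i), lv v < 2 * m + 2) ∧
      L i (test lv x true o) = false ∧ ∀ i' ≤ i, ∀ o' ≤ m,
        (∀ v ∈ Ess (L i'), lv v < 2 * m + 2) → L i' (test lv x false o') = true := by
  classical
  have hex : ∃ n, ∃ i : Fin r, i.val = n ∧ (∀ v ∈ Ess (L i), lv v = 0) ∧ L i x = false := by
    obtain ⟨i, hi⟩ := h.2
    refine ⟨i, i, rfl, ?_, hi x⟩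
    rintro v ⟨a, ha⟩
    exact absurd (by rw [hi, hi]) ha
  obtain ⟨j₀, hj₀, hj₀'⟩ := Nat.find_spec hex
  have H0 : ∀ i : Fin r, i.val < j₀ → (∀ v ∈ Ess (L i), lv v = 0) → L i x = true := by
    intro i hi h1
    by_contra h2
    exact Nat.find_min hex (hj₀ ▸ hi) ⟨i, rfl, h1, by simpa using h2⟩
  obtain ⟨i₁, hi₁, hZ₁, o₁, ho₁, hf₁⟩ := P.exists_falsified h hk x j₀ hj₀' H0
  have hA := P.wrong_not_falsified h x j₀ H0
  constructor
  · intro hfx
    rw [hfx] at hf₁ hA
    exact ⟨i₁, o₁, ho₁, hZ₁, hf₁, fun i' hi' o' _ hZ => hA i' (lt_of_le_of_lt hi' hi₁) hZ o'⟩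
  · rintro ⟨i, o, _, hZ, hi, hall⟩
    by_contra hfx
    have hfx' : f x = false := by simpa using hfx
    rw [hfx'] at hf₁ hA
    by_cases hij : i.val < j₀
    · have := hA i hij hZ o
      simp [hi] at this
    · have := hall i₁ (by
        have : i₁.val < j₀.val := hi₁
        exact Fin.le_def.2 (by omega)) o₁ ho₁ hZ₁
      simp [hf₁] at this

end Padded

end Pool.Agent.MP_a2d820_lc
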