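import Mathlib

/-!
Definitions: prenex quantified Boolean formulas, refutation systems with an oracle for a level of
the polynomial hierarchy, and constant depth circuits with counting gates.
-/

namespace Pool.Agent.MP_a2d820_lc

/-- Truth of a prenex formula with matrix `ψ`, in which variable `v` lies in quantifier block
`b v`; even blocks are existential and odd blocks are universal. `HoldsFrom b ψ r j a` says that
the formula obtained by quantifying the `r` blocks `j, …, j + r - 1` in this order is true, the
other variables taking the values given by `a`. -/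
def HoldsFrom {V : Type} (b : V → ℕ) (ψ : (V → Bool) → Prop) : ℕ → ℕ → (V → Bool) → Prop
  | 0, _, a => ψ a
  | r + 1, j, a =>
    if Even j then ∃ a' : V → Bool, (∀ v, b v ≠ j → a' v = a v) ∧ HoldsFrom b ψ r (j + 1) a'
    else ∀ a' : V → Bool, (∀ v, b v ≠ j → a' v = a v) → HoldsFrom b ψ r (j + 1) a'

/-- Truth of the closed prenex formula with the `k` blocks `0, …, k - 1` (block `0` is existential
and outermost) and matrix `ψ`. -/
def QTrue {V : Type} (k : ℕ) (b : V → ℕ) (ψ : (V → Bool) → Prop) : Prop :=
  HoldsFrom b ψ k 0 fun _ => false

/-- The assignment `a` satisfies the CNF `φ`; the literal `(v, s)` is true when `a v = s`. -/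
def CNFSat {V : Type} (φ : List (List (V × Bool))) (a : V → Bool) : Prop :=
  ∀ c ∈ φ, ∃ l ∈ c, a l.1 = l.2

/-- The variables on which the Boolean function `L` depends. -/
def Ess {V : Type} [DecidableEq V] (L : (V → Bool) → Bool) : Set V :=
  {v | ∃ a : V → Bool, L (Function.update a v true) ≠ L (Function.update a v false)}

/-- `b` is a relaxation with at most `k` blocks of the block assignment `lv`, for deriving a line
that depends on the variables in `F`: a variable that is universal in `b` is universal in `lv`,
is not in `F` and is not to the left of a variable of `F`, and it still precedes every existential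
variable that it precedes in `lv`. -/
def IsRelax {V : Type} (lv : V → ℕ) (F : Set V) (k : ℕ) (b : V → ℕ) : Prop :=
  (∀ v, b v < k) ∧ ∀ u, Odd (b u) → Odd (lv u) ∧ u ∉ F ∧ (∀ w ∈ F, lv w ≤ lv u) ∧
    ∀ y, Even (lv y) → lv u < lv y → b u < b y

/-- A refutation with a level `k` oracle of the formula with blocks `lv` and matrix `ψ`: a sequence
of lines (Boolean functions), one of which is identically false, such that for every line some
relaxation with at most `k` blocks of the formula whose matrix is the conjunction of `ψ`, the
earlier lines and the negation of the line is false. -/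
def IsRefutation {V : Type} [DecidableEq V] (k : ℕ) (lv : V → ℕ) (ψ : (V → Bool) → Prop) {r : ℕ}
    (L : Fin r → (V → Bool) → Bool) : Prop :=
  (∀ i, ∃ b, IsRelax lv (Ess (L i)) k b ∧
    ¬ QTrue k b fun a => ψ a ∧ (∀ j, j < i → L j a = true) ∧ L i a = false) ∧
  ∃ i, ∀ a, L i a = false

/-- Types of unbounded fan-in gates. -/
inductive Gate : Type
  | and : Gate
  | or : Gate
  | mod : Gate

/-- The value of a gate; the counting gate accepts when the number of true inputs is not divisible
by `p`. -/
def gateEval (p : ℕ) : Gate → List Bool → Bool
  | Gate.and, l => l.all id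
  | Gate.or, l => l.any id
  | Gate.mod, l => decide (¬ p ∣ l.count true)

/-- The value carried by a wire coming from a variable or a gate, negated when the flag is set. -/
def wireVal {V G : Type} (val : G → (V → Bool) → Bool) (w : (V ⊕ G) × Bool) (a : V → Bool) :
    Bool :=
  xor (Sum.elim a (fun g => val g a) w.1) w.2

/-- `f` is computed by a circuit (a directed acyclic graph) of depth at most `d` with `s`
unbounded fan-in AND, OR and MOD `p` gates, negations being free. -/
def HasACmod {V : Type} (p d s : ℕ) (f : (V → Bool) → Bool) : Prop :=
  ∃ (kind : Fin s → Gate) (inp : Fin s → List ((V ⊕ Fin s) × Bool)) (layer : Fin s → Fin d)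
    (val : Fin s → (V → Bool) → Bool) (out : (V ⊕ Fin s) × Bool),
    (∀ g, ∀ w ∈ inp g, ∀ g', w.1 = Sum.inr g' → layer g' < layer g) ∧
    (∀ g a, val g a = gateEval p (kind g) ((inp g).map fun w => wireVal val w a)) ∧
    ∀ a, f a = wireVal val out a

end Pool.Agent.MP_a2d820_lc
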