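import Pool.Agent.MP_a2d820_lc.Defs

/-!
Formal complexity measures and polynomial boundedness.
-/

namespace Pool.Agent.MP_a2d820_lc

/-- A formal complexity measure on Boolean functions of finitely many variables: substituting
variables and constants for variables, and negation, cost at most one, and conjunction is
subadditive up to one. -/
def IsMeasure (μ : ∀ V : Type, ((V → Bool) → Bool) → ℕ) : Prop :=
  (∀ (V W : Type) [Finite V] [Finite W] (σ : V → W ⊕ Bool) (f : (V → Bool) → Bool),
    μ W (fun a => f fun v => Sum.elim a id (σ v)) ≤ μ V f + 1) ∧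
  (∀ (V : Type) [Finite V] (f : (V → Bool) → Bool), μ V (fun a => !f a) ≤ μ V f + 1) ∧
  ∀ (V : Type) [Finite V] (f g : (V → Bool) → Bool), μ V (fun a => f a && g a) ≤ μ V f + μ V g + 1

/-- The prenex formula with `K` blocks given by `lv` and CNF matrix `φ` has at most `N` variables,
blocks and clauses, and its clauses have width at most `N`. -/
def SizeLE (N : ℕ) (V : Type) [Fintype V] (K : ℕ) (lv : V → ℕ) (φ : List (List (V × Bool))) :
    Prop :=
  Fintype.card V ≤ N ∧ K ≤ N ∧ φ.length ≤ N ∧ (∀ c ∈ φ, c.length ≤ N) ∧ ∀ v, lv v < K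

/-- Every false formula has a refutation with a level `k` oracle of polynomial total measure. -/
def PolyBounded (μ : ∀ V : Type, ((V → Bool) → Bool) → ℕ) (k : ℕ) : Prop :=
  ∃ c : ℕ, ∀ (N : ℕ) (V : Type) [Fintype V] [DecidableEq V] (K : ℕ) (lv : V → ℕ)
    (φ : List (List (V × Bool))), SizeLE N V K lv φ → ¬ QTrue K lv (CNFSat φ) →
    ∃ (r : ℕ) (L : Fin r → (V → Bool) → Bool), IsRefutation k lv (CNFSat φ) L ∧
      ∑ i, (μ V (L i) + 1) ≤ (N + 2) ^ c

/-- Every Boolean function defined by a quantified formula whose free variables are those of block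
`0` has polynomial measure. -/
def QBFEasy (μ : ∀ V : Type, ((V → Bool) → Bool) → ℕ) : Prop :=
  ∃ c : ℕ, ∀ (N : ℕ) (V : Type) [Fintype V] (K : ℕ) (lv : V → ℕ) (φ : List (List (V × Bool)))
    (f : (V → Bool) → Bool), SizeLE N V K lv φ →
    (∀ a, f a = true ↔ HoldsFrom lv (CNFSat φ) (K - 1) 1 a) → μ V f ≤ (N + 2) ^ c

end Pool.Agent.MP_a2d820_lc
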