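import Pool.Agent.MP_a2d820_lc.ACBound

/-!
The padded counting formulas.
-/

open Finset

namespace Pool.Agent.MP_a2d820_lc

/-- A winning strategy of the universal player gives falsity. -/
lemma not_qtrue_of_strategy {V : Type} {k : ℕ} {b : V → ℕ} (hb : ∀ v, b v < k)
    {ψ : (V → Bool) → Prop} (σ : (V → Bool) → V → Bool)
    (hσ : ∀ a a' u, (∀ v, b v < b u → a v = a' v) → σ a u = σ a' u)
    (hψ : ∀ a, (∀ u, Odd (b u) → a u = σ a u) → ¬ ψ a) : ¬ QTrue k b ψ := by
  have key : ∀ (r j : ℕ) (a : V → Bool), j + r = k →
      (∀ u, b u < j → Odd (b u) → a u = σ a u) → ¬ HoldsFrom b ψ r j a := by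
    intro r
    induction r with
    | zero =>
      intro j a hj ha
      exact hψ a fun u hu => ha u (by have := hb u; omega) hu
    | succ r ih =>
      intro j a hj ha h
      unfold HoldsFrom at h
      split_ifs at h with hev
      · obtain ⟨a', ha', h⟩ := h
        refine ih _ a' (by omega) (fun u hu hodd => ?_) h
        have hne : b u ≠ j := by
          rintro rfl
          exact Nat.not_odd_iff_even.2 hev hodd
        rw [ha' u hne, ha u (by omega) hodd]
        exact hσ _ _ _ fun v hv => (ha' v (by omega)).symm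
      · refine ih _ (fun v => if b v = j then σ a v else a v) (by omega) (fun u hu hodd => ?_)
          (h _ fun v hv => by simp [hv])
        have h1 : σ (fun v => if b v = j then σ a v else a v) u = σ a u :=
          hσ _ _ _ fun v hv => by rw [if_neg (by omega)]
        rw [h1]
        split_ifs with h2
        · rfl
        · exact ha u (by omega) hodd
  exact key k 0 _ (by simp) (by simp)

/-- Variables: inputs, universal variables, their existential partners, automaton states and
equality flags. -/
abbrev Var (N m q : ℕ) : Type :=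
  Fin N ⊕ Fin (m + 1) ⊕ Fin (m + 1) ⊕ (Fin (N + 1) × Fin (q + 1)) ⊕ Fin (m + 1)

namespace Var

variable {N m q : ℕ}

/-- Input variable. -/
abbrev x (i : Fin N) : Var N m q := Sum.inl i
/-- Universal variable. -/
abbrev u (j : Fin (m + 1)) : Var N m q := Sum.inr (Sum.inl j)
/-- Existential partner. -/
abbrev y (j : Fin (m + 1)) : Var N m q := Sum.inr (Sum.inr (Sum.inl j))
/-- Automaton state. -/
abbrev t (i : Fin (N + 1)) (ρ : Fin (q + 1)) : Var N m q :=
  Sum.inr (Sum.inr (Sum.inr (Sum.inl (i, ρ))))
/-- Equality flag. -/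
abbrev e (j : Fin (m + 1)) : Var N m q := Sum.inr (Sum.inr (Sum.inr (Sum.inr j)))

/-- Quantifier blocks. -/
def lv : Var N m q → ℕ
  | Sum.inl _ => 0
  | Sum.inr (Sum.inl j) => 2 * j + 1
  | Sum.inr (Sum.inr (Sum.inl j)) => if j = 0 then 2 * m + 2 else 2 * j
  | Sum.inr (Sum.inr (Sum.inr _)) => 2 * m + 2

/-- Number of true inputs among the first `i`. -/
def cnt (a : Var N m q → Bool) (i : ℕ) : ℕ :=
  (univ.filter fun j : Fin N => j.val < i ∧ a (x j) = true).card

/-- The function to be computed: the number of true inputs is divisible by `q + 1`. -/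
def fn (a : Var N m q → Bool) : Bool := decide (cnt a N % (q + 1) = 0)

/-- The clauses. -/
def clause : Unit ⊕ (Fin N × Fin (q + 1) × Bool) ⊕ Fin (q + 1) ⊕ (Fin (m + 1) × Bool) ⊕ Unit →
    List (Var N m q × Bool)
  | Sum.inl _ => [(t 0 0, true)]
  | Sum.inr (Sum.inl (i, ρ, s)) =>
      [(t i.castSucc ρ, false), (x i, !s), (t i.succ (if s = true then ρ + 1 else ρ), true)]
  | Sum.inr (Sum.inr (Sum.inl ρ)) =>
      [(t (Fin.last N) ρ, false), (u 0, !decide (ρ = 0)), (e 0, true)]
  | Sum.inr (Sum.inr (Sum.inr (Sum.inl (j, s)))) =>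
      if j = 0 then [(e 0, false), (e 0, true)] else [(y j, !s), (u j, !s), (e j, true)]
  | Sum.inr (Sum.inr (Sum.inr (Sum.inr _))) => List.ofFn fun j => (e j, false)

/-- The matrix. -/
noncomputable def cnf (N m q : ℕ) : List (List (Var N m q × Bool)) :=
  (univ.toList).map clause

lemma cnfSat_iff (a : Var N m q → Bool) :
    CNFSat (cnf N m q) a ↔ ∀ c, ∃ l ∈ clause c, a l.1 = l.2 := by
  simp only [CNFSat, cnf, List.forall_mem_map, mem_toList, mem_univ, true_imp_iff]

lemma cnt_zero (a : Var N m q → Bool) : cnt a 0 = 0 := by simp [cnt]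

lemma cnt_succ (a : Var N m q → Bool) (i : Fin N) :
    cnt a (i + 1) = if a (x i) = true then cnt a i + 1 else cnt a i := by
  unfold cnt
  split_ifs with h
  · rw [← card_insert_of_notMem (a := i) (by simp)]
    congr 1
    ext j
    simp only [mem_filter, mem_univ, true_and, mem_insert]
    constructor
    · rintro ⟨h1, h2⟩
      by_cases hj : j = i
      · exact Or.inl hj
      · exact Or.inr ⟨by have := Fin.val_ne_of_ne hj; omega, h2⟩
    · rintro (rfl | ⟨h1, h2⟩)
      · exact ⟨by omega, h⟩
      · exact ⟨by omega, h2⟩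
  · congr 1
    ext j
    simp only [mem_filter, mem_univ, true_and]
    constructor
    · rintro ⟨h1, h2⟩
      have hj : j ≠ i := by rintro rfl; exact h h2
      exact ⟨by have := Fin.val_ne_of_ne hj; omega, h2⟩
    · rintro ⟨h1, h2⟩
      exact ⟨by omega, h2⟩

lemma cnt_congr {a a' : Var N m q → Bool} (h : ∀ i, a (x i) = a' (x i)) (i : ℕ) :
    cnt a i = cnt a' i := by
  simp [cnt, h]

/-- The residue reached after reading `i` inputs. -/
def res (a : Var N m q → Bool) (i : ℕ) : Fin (q + 1) := Fin.ofNat _ (cnt a i)

lemma res_succ (a : Var N m q → Bool) (i : Fin N) :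
    res a (i + 1) = if a (x i) = true then res a i + 1 else res a i := by
  unfold res
  rw [cnt_succ]
  split_ifs
  · apply Fin.ext
    simp [Fin.val_add]
  · rfl

lemma fn_eq (a : Var N m q → Bool) : fn a = decide (res a N = 0) := by
  simp [fn, res, Fin.ext_iff]

/-- The target value of a universal variable. -/
def tgt (a : Var N m q → Bool) (j : Fin (m + 1)) : Bool := if j = 0 then fn a else a (y j)

/-- The Skolem functions of the last block. -/
def zeta (a : Var N m q → Bool) : Var N m q → Bool
  | Sum.inr (Sum.inr (Sum.inr (Sum.inl (i, ρ)))) => decide (res a i = ρ)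
  | Sum.inr (Sum.inr (Sum.inr (Sum.inr j))) => decide (a (u j) = tgt a j)
  | _ => false

lemma tgt_congr {a a' : Var N m q → Bool} (j : Fin (m + 1))
    (h : ∀ v : Var N m q, lv v < 2 * j + 1 → a v = a' v) : tgt a j = tgt a' j := by
  unfold tgt
  split_ifs with hj
  · unfold fn
    rw [cnt_congr fun i => h _ (by simp [lv])]
  · exact h _ (by simp [lv, hj])

lemma sat_of_wrong (a : Var N m q → Bool)
    (ht : ∀ i ρ, a (t i ρ) = decide (res a i = ρ))
    (he : ∀ j, a (e j) = decide (a (u j) = tgt a j)) (hw : ∃ j, a (u j) ≠ tgt a j) :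
    CNFSat (cnf N m q) a := by
  rw [cnfSat_iff]
  rintro (_ | ⟨i, ρ, s⟩ | ρ | ⟨j, s⟩ | _)
  · simp [clause, ht, res, cnt_zero]
  · simp only [clause, List.mem_cons, List.not_mem_nil, or_false, exists_eq_or_imp, ht,
      exists_eq_left, Fin.val_castSucc, Fin.val_succ, res_succ]
    by_cases h1 : res a i = ρ
    · cases s <;> cases a (x i) <;> simp [h1]
    · simp [h1]
  · simp only [clause, List.mem_cons, List.not_mem_nil, or_false, exists_eq_or_imp, ht, he,
      exists_eq_left, Fin.val_last, tgt, if_true, fn_eq]
    by_cases h1 : res a N = ρ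
    · subst h1
      cases a (u 0) <;> by_cases h2 : res a N = 0 <;> simp [h2]
    · simp [h1]
  · by_cases hj : j = 0
    · cases h : a (e 0) <;> simp [clause, hj, h]
    · simp only [clause, hj, if_false, List.mem_cons, List.not_mem_nil, or_false,
        exists_eq_or_imp, exists_eq_left, he, tgt]
      cases s <;> cases a (u j) <;> cases a (y j) <;> simp
  · obtain ⟨j, hj⟩ := hw
    refine ⟨(e j, false), ?_, by simp [he, hj]⟩
    simp only [clause, List.mem_ofFn]
    exact ⟨j, rfl⟩

lemma not_sat_of_right (a : Var N m q → Bool) (hr : ∀ j, a (u j) = tgt a j) :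
    ¬ CNFSat (cnf N m q) a := by
  rw [cnfSat_iff]
  intro h
  have ht : ∀ (n : ℕ) (hn : n < N + 1), a (t ⟨n, hn⟩ (res a n)) = true := by
    intro n
    induction n with
    | zero =>
      intro hn
      have := h (Sum.inl ())
      simpa [clause, res, cnt_zero] using this
    | succ n ih =>
      intro hn
      have h1 := h (Sum.inr (Sum.inl (⟨n, by omega⟩, res a n, a (x ⟨n, by omega⟩))))
      have h2 := ih (by omega)
      have h3 := res_succ a ⟨n, by omega⟩
      simp only [clause, List.mem_cons, List.not_mem_nil, or_false, exists_eq_or_imp,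
        exists_eq_left, Fin.castSucc_mk, h2, Fin.succ_mk] at h1
      simp only at h3
      rw [h3]
      simpa using h1
  have he : ∀ j, a (e j) = true := by
    intro j
    by_cases hj : j = 0
    · have h1 := h (Sum.inr (Sum.inr (Sum.inl (res a N))))
      have h2 : a (t (Fin.last N) (res a N)) = true := ht N (by omega)
      have h3 := hr 0
      simp only [tgt, if_true, fn_eq] at h3
      simp only [clause, List.mem_cons, List.not_mem_nil, or_false, exists_eq_or_imp,
        exists_eq_left, h2, h3] at h1
      subst hj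
      simpa using h1
    · have h1 := h (Sum.inr (Sum.inr (Sum.inr (Sum.inl (j, a (y j))))))
      have h3 := hr j
      simp only [tgt, hj, if_false] at h3
      simp only [clause, hj, if_false, List.mem_cons, List.not_mem_nil, or_false,
        exists_eq_or_imp, exists_eq_left, h3] at h1
      simpa using h1
  obtain ⟨l, hl, hl'⟩ := h (Sum.inr (Sum.inr (Sum.inr (Sum.inr ()))))
  simp only [clause, List.mem_ofFn] at hl
  obtain ⟨j, rfl⟩ := hl
  simp [he] at hl'

lemma lv_lt (v : Var N m q) : lv v < 2 * m + 3 := by
  rcases v with i | j | j | _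
  · simp [lv]
  · have := j.2; simp only [lv]; omega
  · have := j.2; simp only [lv]; split_ifs <;> omega
  · simp [lv]

lemma cnf_false : ¬ QTrue (2 * m + 3) (lv : Var N m q → ℕ) (CNFSat (cnf N m q)) := by
  refine not_qtrue_of_strategy lv_lt (fun a v => match v with
    | Sum.inr (Sum.inl j) => tgt a j
    | _ => false) ?_ fun a ha => not_sat_of_right a fun j => ha (u j) (by simp [lv])
  intro a a' v h
  rcases v with i | j | j | _
  · rfl
  · exact tgt_congr j h
  · rfl
  · rfl

/-- The padded structure of the counting formulas. -/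
def padded (N m q : ℕ) : Padded (lv : Var N m q → ℕ) (CNFSat (cnf N m q)) m fn where
  u := fun j => u ⟨min j m, by omega⟩
  y := fun j => y ⟨min j m, by omega⟩
  ζ := zeta
  hu := fun j hj => by simp [lv, hj]
  hu' := by
    intro j hj v hv
    rcases v with i | j' | j' | _
    · simp [lv] at hv
    · simp only [lv] at hv
      congr 2
      apply Fin.ext
      simp only
      omega
    · simp only [lv] at hv
      split_ifs at hv <;> omega
    · simp only [lv] at hv
      omega
  hy := fun j hj hj1 => by
    simp only [lv]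
    rw [if_neg (by simp [Fin.ext_iff]; omega)]
    omega
  hy' := by
    intro j hj hj1 v hv
    rcases v with i | j' | j' | _
    · simp only [lv] at hv
      omega
    · simp only [lv] at hv
      omega
    · simp only [lv] at hv
      split_ifs at hv
      · omega
      · congr 3
        apply Fin.ext
        simp only
        omega
    · simp only [lv] at hv
      omega
  hf := fun a a' h => by
    unfold fn
    rw [cnt_congr fun i => h _ (by simp [lv])]
  hζ := by
    intro a a' z hz _ h
    have h' : ∀ v : Var N m q, lv v < 2 * m + 2 → a v = a' v := fun v hv =>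
      h v (by omega) (Or.inl hv)
    rcases z with i | j | j | ⟨i, ρ⟩ | j
    · rfl
    · rfl
    · rfl
    · have : res a i = res a' i := by
        unfold res
        rw [cnt_congr fun i => h' _ (by simp [lv])]
      simp only [zeta, this]
    · have := j.2
      simp only [zeta]
      rw [tgt_congr j fun v hv => h' v (by omega), h' (u j) (by simp only [lv]; omega)]
  hwin := by
    rintro a hc ⟨j, hj, hw⟩
    refine sat_of_wrong a (fun i ρ => hc _ (by simp [lv]) (by simp [lv, parity_simps]))
      (fun j => hc _ (by simp [lv]) (by simp [lv, parity_simps])) ⟨⟨min j m, by omega⟩, ?_⟩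
    unfold tgt
    by_cases hj0 : j = 0
    · subst hj0
      simpa using hw
    · rw [if_neg hj0] at hw
      rw [if_neg (by simp [Fin.ext_iff]; omega)]
      exact hw
  hz := ⟨e 0, by simp [lv], by simp [lv, parity_simps]⟩

end Var

open Var in
theorem counting_bound {p q n m k d r l : ℕ} [Fact p.Prime] (hq : 1 ≤ q) (hpq : ¬ p ∣ q + 1)
    (hk : k ≤ 2 * m + 2) {L : Fin r → (Var (2 * n + 1 + q) m q → Bool) → Bool} {s : Fin r → ℕ}
    (h : IsRefutation k lv (CNFSat (cnf (2 * n + 1 + q) m q)) L)
    (hs : ∀ i, HasACmod p d (s i) (L i)) (hl1 : 1 ≤ l)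
    (hl : 4 * ((q + 1) * (3 * (m + 1) * ∑ i, (s i + 1))) ≤ 2 ^ l) :
    2 * n + 3 ≤ 16 * (2 * (l * (p - 1)) ^ (d + 2)) ^ 2 := by
  classical
  refine degree_bound (p := p) (by omega) hpq hl fun ρ hρ => ?_
  let pad := (q + 1 - ρ) % (q + 1)
  have hpad : pad ≤ q := Nat.lt_succ_iff.1 (Nat.mod_lt _ (by omega))
  let σ : (Fin (2 * n + 1) → Bool) → Var (2 * n + 1 + q) m q → Bool := fun ω v =>
    match v with
    | Sum.inl i => Fin.addCases (motive := fun _ => Bool) ω (fun j : Fin q => decide (j.val < pad)) i
    | _ => false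
  obtain ⟨β, hβ, hβ'⟩ := (padded (2 * n + 1 + q) m q).approx (K := AlgebraicClosure (ZMod p))
    h hk hs σ (by
      intro v B
      rcases v with i | _
      · refine Fin.addCases (fun i => ?_) (fun j => ?_) i
        · simpa [σ] using lowOff_coord B i
        · simpa [σ] using lowOff_const B _
      · exact lowOff_const B false) l hl1
  refine ⟨β, hβ, fun B hB => (hβ' B hB).congr fun ω => ?_⟩
  have hc : cnt (σ ω) (2 * n + 1 + q) = (univ.filter fun i => ω i = true).card + pad := by
    unfold cnt
    rw [card_filter, Fin.sum_univ_add, card_filter]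
    congr 1
    · refine sum_congr rfl fun i _ => ?_
      have := i.2
      simp [σ, show i.val < 2 * n + 1 + q by omega]
    · have h1 : ∀ j : Fin q, (if (Fin.natAdd (2 * n + 1) j).val < 2 * n + 1 + q ∧
          σ ω (x (Fin.natAdd (2 * n + 1) j)) = true then 1 else 0) =
          if j.val < pad then 1 else 0 := by
        intro j
        simp [σ]
      rw [sum_congr rfl fun j _ => h1 j, ← card_filter, Fin.card_filter_val_lt]
      omega
  unfold fn
  rw [hc]
  congr 1
  apply propext
  generalize (univ.filter fun i => ω i = true).card = c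
  have hc' : c % (q + 1) < q + 1 := Nat.mod_lt _ (by omega)
  rw [Nat.add_mod]
  simp only [pad, Nat.mod_mod]
  rcases Nat.eq_zero_or_pos ρ with rfl | hρ0
  · simp
  · rw [Nat.mod_eq_of_lt (show q + 1 - ρ < q + 1 by omega)]
    generalize c % (q + 1) = c' at hc' ⊢
    constructor
    · intro h1
      by_cases h2 : c' + (q + 1 - ρ) < q + 1
      · rw [Nat.mod_eq_of_lt h2] at h1
        omega
      · rw [Nat.mod_eq_sub_mod (by omega), Nat.mod_eq_of_lt (by omega)] at h1
        omega
    · rintro rfl
      rw [show c' + (q + 1 - c') = q + 1 by omega, Nat.mod_self]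

end Pool.Agent.MP_a2d820_lc
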