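import Pool.Agent.MP_a2d820_lc.Upper

/-!
Small measure of the functions defined by quantified formulas from short refutations.
-/

open Finset

namespace Pool.Agent.MP_a2d820_lc

variable {V : Type}

/-- Optimal strategies of both players, uniformly in the free variables. -/
lemma exists_both {K : ℕ} {lv : V → ℕ} (hlv : ∀ v, lv v < K) {ψ : (V → Bool) → Prop}
    {f : (V → Bool) → Bool} (hf : ∀ a, f a = true ↔ HoldsFrom lv ψ (K - 1) 1 a) :
    ∃ S : (V → Bool) → V → Bool,
      (∀ a a' v, (∀ w, lv w < lv v → (lv w = 0 ∨ (Even (lv w) ↔ Odd (lv v))) → a w = a' w) →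
        S a v = S a' v) ∧
      (∀ a, f a = true → (∀ v, lv v ≠ 0 → Even (lv v) → a v = S a v) → ψ a) ∧
      (∀ a, f a = false → (∀ v, Odd (lv v) → a v = S a v) → ¬ ψ a) := by
  classical
  let tr : (V → Bool) → V → Bool := fun a v => if lv v = 0 then a v else false
  have htr : ∀ a, f (tr a) = f a := by
    intro a
    have h' : ∀ v, (lv v < 1 ∨ 1 + (K - 1) ≤ lv v) → tr a v = a v := fun v hv =>
      if_pos (by have := hlv v; omega)
    rw [Bool.eq_iff_iff, hf, hf]
    exact ⟨holds_congr _ _ _ _ h', holds_congr _ _ _ _ fun v hv => (h' v hv).symm⟩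
  have h1 : ∀ x : V → Bool, ∃ τ : (V → Bool) → V → Bool,
      (∀ c c' v, (∀ u, Odd (lv u) → 1 ≤ lv u → lv u < lv v → c u = c' u) → τ c v = τ c' v) ∧
      (f x = true → ∀ c, ψ fun v => if 1 ≤ lv v ∧ lv v < 1 + (K - 1) then
        (if Odd (lv v) then c v else τ c v) else x v) := by
    intro x
    by_cases hx : f x = true
    · obtain ⟨τ, h1, h2⟩ := exists_strategy _ _ _ ((hf x).1 hx)
      exact ⟨τ, h1, fun _ => h2⟩
    · exact ⟨fun _ _ => false, fun _ _ _ _ => rfl, fun h => absurd h hx⟩
  have h2 : ∀ x : V → Bool, ∃ τ : (V → Bool) → V → Bool,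
      (∀ c c' v, (∀ u, Odd (lv u + 1) → 1 + 1 ≤ lv u + 1 → lv u + 1 < lv v + 1 → c u = c' u) →
        τ c v = τ c' v) ∧
      (f x = false → ∀ c, ¬ ψ fun v => if 1 + 1 ≤ lv v + 1 ∧ lv v + 1 < 1 + 1 + (K - 1) then
        (if Odd (lv v + 1) then c v else τ c v) else x v) := by
    intro x
    by_cases hx : f x = false
    · have : ¬ HoldsFrom lv ψ (K - 1) 1 x := by rw [← hf, hx]; simp
      obtain ⟨τ, h1, h2⟩ := exists_strategy _ _ _ ((holds_dual _ _ _).1 this)
      exact ⟨τ, h1, fun _ => h2⟩
    · exact ⟨fun _ _ => false, fun _ _ _ _ => rfl, fun h => absurd h hx⟩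
  choose τ₁ hτ₁ hw₁ using h1
  choose τ₂ hτ₂ hw₂ using h2
  refine ⟨fun a v => if lv v = 0 then false else if Even (lv v) then τ₁ (tr a) a v
    else τ₂ (tr a) a v, fun a a' v h => ?_, fun a ha h => ?_, fun a ha h => ?_⟩
  · by_cases h0 : lv v = 0
    · simp [h0]
    have h3 : tr a = tr a' := by
      funext w
      simp only [tr]
      split_ifs with hw
      · exact h w (by omega) (Or.inl hw)
      · rfl
    simp only [h0, if_false, h3]
    split_ifs with hev
    · refine hτ₁ _ _ _ _ fun u hu _ huv => h u huv (Or.inr ?_)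
      simp [Nat.not_even_iff_odd.2 hu, Nat.not_odd_iff_even.2 hev]
    · refine hτ₂ _ _ _ _ fun u hu _ huv => h u (by omega) (Or.inr ?_)
      simp [Nat.not_even_iff_odd.1 hev, Nat.odd_add_one.1 hu, Nat.not_odd_iff_even.1]
  · convert hw₁ (tr a) (by rw [htr, ha]) a using 2 with v
    have := hlv v
    by_cases h0 : lv v = 0
    · simp [h0, tr]
    · rw [if_pos (by omega)]
      split_ifs with ho
      · rfl
      · have he := Nat.not_odd_iff_even.1 ho
        rw [h v h0 he]
        simp [h0, he]
  · convert hw₂ (tr a) (by rw [htr, ha]) a using 3 with v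
    have := hlv v
    by_cases h0 : lv v = 0
    · simp [h0, tr]
    · rw [if_pos (by omega)]
      split_ifs with ho
      · rfl
      · have he : Odd (lv v) := by simpa [Nat.odd_add_one] using ho
        rw [h v he]
        simp [h0, Nat.not_even_iff_odd.2 he]

/-- Variables of the padded formula: two copies of the variables, universal variables, their
partners, inequality flags, a guard and clause selectors. -/
abbrev PVar (V : Type) (m M : ℕ) : Type :=
  V ⊕ V ⊕ Fin (m + 1) ⊕ Fin (m + 1) ⊕ Fin (m + 1) ⊕ Unit ⊕ Fin M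

namespace PVar

variable {m M : ℕ}

/-- First copy. -/
abbrev a₁ (v : V) : PVar V m M := Sum.inl v
/-- Second copy. -/
abbrev a₂ (v : V) : PVar V m M := Sum.inr (Sum.inl v)
/-- Universal variable. -/
abbrev u (j : Fin (m + 1)) : PVar V m M := Sum.inr (Sum.inr (Sum.inl j))
/-- Existential partner. -/
abbrev y (j : Fin (m + 1)) : PVar V m M := Sum.inr (Sum.inr (Sum.inr (Sum.inl j)))
/-- Inequality flag. -/
abbrev n (j : Fin (m + 1)) : PVar V m M := Sum.inr (Sum.inr (Sum.inr (Sum.inr (Sum.inl j))))
/-- Guard. -/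
abbrev g : PVar V m M := Sum.inr (Sum.inr (Sum.inr (Sum.inr (Sum.inr (Sum.inl ())))))
/-- Clause selector. -/
abbrev c (i : Fin M) : PVar V m M := Sum.inr (Sum.inr (Sum.inr (Sum.inr (Sum.inr (Sum.inr i)))))

/-- Second copy, sharing the free variables with the first copy. -/
def e₂ (lv : V → ℕ) (v : V) : PVar V m M := if lv v = 0 then a₁ v else a₂ v

/-- Quantifier blocks. -/
def plv (K : ℕ) (lv : V → ℕ) : PVar V m M → ℕ
  | Sum.inl v => if lv v = 0 then 0 else lv v + (2 * m + 2)
  | Sum.inr (Sum.inl v) => if lv v = 0 then 2 * m + 2 + 2 * K else lv v + (2 * m + 1)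
  | Sum.inr (Sum.inr (Sum.inl j)) => 2 * j + 1
  | Sum.inr (Sum.inr (Sum.inr (Sum.inl j))) => if j = 0 then 2 * m + 2 + 2 * K else 2 * j
  | Sum.inr (Sum.inr (Sum.inr (Sum.inr _))) => 2 * m + 2 + 2 * K

/-- The matrix. -/
def cnf (lv : V → ℕ) (φ : List (List (V × Bool))) (m : ℕ) :
    List (List (PVar V m φ.length × Bool)) :=
  (φ.map fun C => (g, true) :: (u 0, true) :: C.map fun l => (a₁ l.1, l.2)) ++
  [(g, true) :: (u 0, false) :: List.ofFn fun i => (c i, true)] ++
  (List.ofFn fun i : Fin φ.length =>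
    (φ.get i).map fun l => [(c i, false), (e₂ lv l.1, !l.2)]).flatten ++
  [(g, false) :: List.ofFn fun j : Fin m => (n j.succ, true)] ++
  (List.ofFn fun j => [(n j, false), (y j, true), (u j, true)]) ++
  (List.ofFn fun j => [(n j, false), (y j, false), (u j, false)])

lemma cnfSat_iff (lv : V → ℕ) (φ : List (List (V × Bool))) (m : ℕ)
    (a : PVar V m φ.length → Bool) :
    CNFSat (cnf lv φ m) a ↔
      (a g = true ∨ a (u 0) = true ∨ CNFSat φ fun v => a (a₁ v)) ∧
      (a g = true ∨ a (u 0) = false ∨ ∃ i, a (c i) = true) ∧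
      (∀ i, a (c i) = true → ∀ l ∈ φ.get i, a (e₂ lv l.1) ≠ l.2) ∧
      (a g = true → ∃ j : Fin m, a (n j.succ) = true) ∧
      ∀ j, a (n j) = true → a (y j) ≠ a (u j) := by
  simp only [CNFSat, cnf, List.forall_mem_append, List.forall_mem_map, List.forall_mem_singleton,
    List.forall_mem_flatten, List.forall_mem_ofFn_iff, List.exists_mem_cons_iff, and_assoc]
  refine and_congr ?_ (and_congr ?_ (and_congr ?_ (and_congr ?_ ?_)))
  · simp only [List.mem_map, exists_exists_and_eq_and]
    by_cases h1 : a g = true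
    · simp [h1]
    by_cases h2 : a (u 0) = true
    · simp [h2]
    simp [h1, h2]
  · simp [List.mem_ofFn]
  · refine forall_congr' fun i => ?_
    by_cases h1 : a (c i) = true
    · simp [h1]
    · simp [h1]
  · by_cases h1 : a g = true
    · simp [h1, List.mem_ofFn]
    · simp [h1]
  · rw [← forall_and]
    refine forall_congr' fun j => ?_
    cases a (n j) <;> cases a (y j) <;> cases a (u j) <;> simp

lemma plv_lt {K : ℕ} {lv : V → ℕ} (hlv : ∀ v, lv v < K) (v : PVar V m M) :
    plv K lv v < 2 * m + 3 + 2 * K := by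
  rcases v with v | v | j | j | _
  · have := hlv v; simp only [plv]; split_ifs <;> omega
  · have := hlv v; simp only [plv]; split_ifs <;> omega
  · have := j.2; simp only [plv]; omega
  · have := j.2; simp only [plv]; split_ifs <;> omega
  · simp only [plv]; omega

lemma plv_e₂ (K : ℕ) (lv : V → ℕ) (v : V) :
    plv K lv (e₂ lv v : PVar V m M) = if lv v = 0 then 0 else lv v + (2 * m + 1) := by
  unfold e₂
  split_ifs with h <;> simp [plv, h]

section

variable {K : ℕ} {lv : V → ℕ} (hlv : ∀ v, lv v < K) {φ : List (List (V × Bool))}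
  {f : (V → Bool) → Bool} (hf : ∀ a a' : V → Bool, (∀ v, lv v = 0 → a v = a' v) → f a = f a')
  {S : (V → Bool) → V → Bool}
  (hS : ∀ a a' v, (∀ w, lv w < lv v → (lv w = 0 ∨ (Even (lv w) ↔ Odd (lv v))) → a w = a' w) →
    S a v = S a' v)
  (hS₁ : ∀ a, f a = true → (∀ v, lv v ≠ 0 → Even (lv v) → a v = S a v) → CNFSat φ a)
  (hS₂ : ∀ a, f a = false → (∀ v, Odd (lv v) → a v = S a v) → ¬ CNFSat φ a)

include hlv hf hS hS₁ hS₂ in
lemma cnf_false : ¬ QTrue (2 * m + 3 + 2 * K) (plv K lv) (CNFSat (cnf lv φ m)) := by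
  refine not_qtrue_of_strategy (plv_lt hlv) (fun a v => match v with
    | Sum.inl v => S (fun v => a (a₁ v)) v
    | Sum.inr (Sum.inl v) => S (fun v => a (e₂ lv v)) v
    | Sum.inr (Sum.inr (Sum.inl j)) => if j = 0 then f (fun v => a (a₁ v)) else a (y j)
    | _ => false) ?_ fun a ha hsat => ?_
  · intro a a' v h
    rcases v with v | v | j | _
    · refine hS _ _ _ fun w hw _ => h _ ?_
      simp only [plv]
      split_ifs <;> omega
    · refine hS _ _ _ fun w hw _ => h _ ?_
      rw [plv_e₂]
      simp only [plv]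
      split_ifs <;> omega
    · simp only
      split_ifs with hj
      · exact hf _ _ fun v hv => h _ (by simp [plv, hv])
      · exact h _ (by simp [plv, hj])
    · rfl
  · obtain ⟨h1, h2, h3, h4, h5⟩ := (cnfSat_iff lv φ m a).1 hsat
    have hu : ∀ j, a (u j) = if j = 0 then f (fun v => a (a₁ v)) else a (y j) :=
      fun j => ha (u j) (by simp [plv])
    by_cases hg : a g = true
    · obtain ⟨j, hj⟩ := h4 hg
      exact h5 _ hj (by rw [hu, if_neg (Fin.succ_ne_zero j)])
    have hu0 := hu 0
    rw [if_pos rfl] at hu0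
    by_cases h0 : a (u 0) = true
    · obtain ⟨i, hi⟩ : ∃ i, a (c i) = true := by simpa [hg, h0] using h2
      have h6 : f (fun v => a (e₂ lv v)) = true := by
        rw [← h0, hu0]
        exact hf _ _ fun v hv => by simp [e₂, hv]
      obtain ⟨l, hl, hl'⟩ := hS₁ _ h6 (fun v hv hev => by
        have := ha (a₂ v) (by
          simp only [plv, hv, if_false]
          exact hev.add_odd (by simp))
        simpa [e₂, hv] using this) (φ.get i) (List.get_mem _ _)
      exact h3 i hi l hl hl'
    · refine hS₂ (fun v => a (a₁ v)) (by rw [← hu0]; simpa using h0) (fun v hv => ?_)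
        (by simpa [hg, h0] using h1)
      refine ha (a₁ v) ?_
      have : lv v ≠ 0 := by rintro h; simp [h] at hv
      simp only [plv, this, if_false]
      exact hv.add_even (by simp [parity_simps])

open Classical in
/-- Skolem functions of the padded formula. -/
noncomputable def zeta (lv : V → ℕ) (φ : List (List (V × Bool))) (S : (V → Bool) → V → Bool)
    (a : PVar V m φ.length → Bool) : PVar V m φ.length → Bool
  | Sum.inl v => S (fun v => a (a₁ v)) v
  | Sum.inr (Sum.inl v) => S (fun v => a (e₂ lv v)) v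
  | Sum.inr (Sum.inr (Sum.inr (Sum.inr (Sum.inl j)))) => decide (j ≠ 0 ∧ a (y j) ≠ a (u j))
  | Sum.inr (Sum.inr (Sum.inr (Sum.inr (Sum.inr (Sum.inl _))))) =>
      decide (∃ j, j ≠ 0 ∧ a (y j) ≠ a (u j))
  | Sum.inr (Sum.inr (Sum.inr (Sum.inr (Sum.inr (Sum.inr i))))) =>
      decide (∀ l ∈ φ.get i,
        (if Odd (lv l.1) then S (fun v => a (e₂ lv v)) l.1 else a (e₂ lv l.1)) ≠ l.2)
  | _ => false

/-- The padded structure. -/
noncomputable def padded (m : ℕ) :
    Padded (plv K lv) (CNFSat (cnf lv φ m)) m fun a => f fun v => a (a₁ v) where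
  u := fun j => u ⟨min j m, by omega⟩
  y := fun j => y ⟨min j m, by omega⟩
  ζ := zeta lv φ S
  hu := fun j hj => by simp [plv, hj]
  hu' := by
    intro j hj v hv
    rcases v with v | v | j' | j' | _
    · simp only [plv] at hv
      split_ifs at hv <;> omega
    · simp only [plv] at hv
      split_ifs at hv <;> omega
    · simp only [plv] at hv
      congr 3
      apply Fin.ext
      simp only
      omega
    · simp only [plv] at hv
      split_ifs at hv <;> omega
    · simp only [plv] at hv
      omega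
  hy := fun j hj hj1 => by
    simp only [plv]
    rw [if_neg (by simp [Fin.ext_iff]; omega)]
    omega
  hy' := by
    intro j hj hj1 v hv
    rcases v with v | v | j' | j' | _
    · simp only [plv] at hv
      split_ifs at hv <;> omega
    · simp only [plv] at hv
      split_ifs at hv <;> omega
    · simp only [plv] at hv
      omega
    · simp only [plv] at hv
      split_ifs at hv
      · omega
      · congr 4
        apply Fin.ext
        simp only
        omega
    · simp only [plv] at hv
      omega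
  hf := fun a a' h => hf _ _ fun v hv => h _ (by simp [plv, hv])
  hζ := by
    intro a a' z hz hev h
    have hyu : plv K lv z = 2 * m + 2 + 2 * K → ∀ j, j ≠ 0 →
        a (y j) = a' (y j) ∧ a (u j) = a' (u j) := by
      intro hz j hj
      have := j.2
      constructor
      · refine h _ ?_ (Or.inl ?_)
        · rw [hz]; simp only [plv, hj, if_false]; omega
        · simp only [plv, hj, if_false]; omega
      · refine h _ ?_ (Or.inl ?_)
        · rw [hz]; simp only [plv]; omega
        · simp only [plv]; omega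
    have he : ∀ w, ¬ Odd (lv w) → plv K lv (e₂ lv w : PVar V m φ.length) < plv K lv z →
        a (e₂ lv w) = a' (e₂ lv w) := by
      intro w hw hlt
      refine h _ hlt ?_
      rw [plv_e₂]
      split_ifs with h0
      · omega
      · exact Or.inr ((Nat.not_odd_iff_even.1 hw).add_odd (by simp))
    rcases z with v | v | j | j | j | _ | i
    · simp only [plv] at hz hev
      have h0 : lv v ≠ 0 := by intro h0; simp [h0] at hz
      rw [if_neg h0] at hev
      refine hS _ _ _ fun w hw hw' => h _ ?_ ?_
      · simp only [plv]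
        split_ifs <;> omega
      · simp only [plv]
        split_ifs with h1
        · omega
        · right
          simp only [h1, false_or, Nat.even_iff, Nat.odd_iff] at hw' hev ⊢
          omega
    · refine hS _ _ _ fun w hw hw' => he w ?_ ?_
      · simp only [plv] at hev
        rw [if_neg (by omega)] at hev
        simp only [Nat.even_iff, Nat.odd_iff] at hw' hev ⊢
        omega
      · rw [plv_e₂]
        simp only [plv]
        split_ifs <;> omega
    · rfl
    · rfl
    · simp only [zeta]
      by_cases hj : j = 0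
      · simp [hj]
      · rw [(hyu rfl j hj).1, (hyu rfl j hj).2]
    · simp only [zeta]
      congr 1
      refine propext (exists_congr fun j => and_congr_right fun hj => ?_)
      rw [(hyu rfl j hj).1, (hyu rfl j hj).2]
    · simp only [zeta]
      congr 1
      have he' : ∀ w, ¬ Odd (lv w) → a (e₂ lv w) = a' (e₂ lv w) := fun w hw => he w hw (by
        have := hlv w
        rw [plv_e₂]
        simp only [plv]
        split_ifs <;> omega)
      refine propext (forall₂_congr fun l _ => ?_)
      split_ifs with ho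
      · rw [hS _ (fun v => a' (e₂ lv v)) _ fun w _ hw' => he' w ?_]
        simp only [Nat.even_iff, Nat.odd_iff] at hw' ho ⊢
        omega
      · rw [he' _ ho]
  hwin := by
    rintro a hc ⟨j, hj, hw⟩
    have hT : ∀ z, plv K lv z = 2 * m + 2 + 2 * K → a z = zeta lv φ S a z := fun z hz =>
      hc z (by omega) (by rw [hz]; simp [parity_simps])
    have hn : ∀ j, a (n j) = true ↔ j ≠ 0 ∧ a (y j) ≠ a (u j) := fun j => by
      rw [hT _ rfl]; simp only [zeta, decide_eq_true_eq]
    have hg : a g = true ↔ ∃ j, j ≠ 0 ∧ a (y j) ≠ a (u j) := by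
      rw [hT _ rfl]; simp only [zeta, decide_eq_true_eq]
    have h2 : ∀ v, Odd (lv v) → a (e₂ lv v) = S (fun v => a (e₂ lv v)) v := by
      intro v hv
      have h0 : lv v ≠ 0 := by rintro h; simp [h] at hv
      have := hc (a₂ v) (by simp only [plv, h0, if_false]; omega) (by
        simp only [plv, h0, if_false]
        exact hv.add_odd (by simp))
      simpa [e₂, h0, zeta] using this
    have hci : ∀ i, a (c i) = true ↔ ∀ l ∈ φ.get i, a (e₂ lv l.1) ≠ l.2 := fun i => by
      rw [hT _ rfl]
      simp only [zeta, decide_eq_true_eq]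
      refine forall₂_congr fun l _ => ?_
      split_ifs with ho
      · rw [h2 _ ho]
      · rfl
    have hu0 : a g = true ∨ a (u 0) ≠ f fun v => a (a₁ v) := by
      by_cases hj0 : j = 0
      · subst hj0
        right
        simpa using hw
      · rw [if_neg hj0] at hw
        exact Or.inl (hg.2 ⟨_, by simp [Fin.ext_iff]; omega, hw.symm⟩)
    refine (cnfSat_iff lv φ m a).2 ⟨?_, ?_, fun i hi => (hci i).1 hi, fun h => ?_,
      fun j h => ((hn j).1 h).2⟩
    · rcases hu0 with h | h
      · exact Or.inl h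
      by_cases h0 : a (u 0) = true
      · exact Or.inr (Or.inl h0)
      refine Or.inr (Or.inr (hS₁ _ (by revert h h0; cases a (u 0) <;> simp) fun v hv hev => ?_))
      exact hc (a₁ v) (by simp only [plv, hv, if_false]; omega) (by
        simp only [plv, hv, if_false]
        exact hev.add (by simp [parity_simps]))
    · rcases hu0 with h | h
      · exact Or.inl h
      by_cases h0 : a (u 0) = false
      · exact Or.inr (Or.inl h0)
      have h3 : f (fun v => a (e₂ lv v)) = false := by
        rw [hf _ (fun v => a (a₁ v)) fun v hv => by simp [e₂, hv]]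
        revert h h0
        cases a (u 0) <;> simp
      have h4 := hS₂ _ h3 h2
      simp only [CNFSat, not_forall, not_exists, not_and] at h4
      obtain ⟨C, hC, h4⟩ := h4
      obtain ⟨i, rfl⟩ := List.get_of_mem hC
      exact Or.inr (Or.inr ⟨i, (hci i).2 h4⟩)
    · obtain ⟨j, hj, hj'⟩ := hg.1 h
      obtain ⟨j, rfl⟩ := Fin.exists_succ_eq.2 hj
      exact ⟨j, (hn _).2 ⟨hj, hj'⟩⟩
  hz := ⟨g, by simp [plv], by simp [plv, parity_simps]⟩

end

lemma size_le [Fintype V] {N K : ℕ} {lv : V → ℕ} {φ : List (List (V × Bool))}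
    (h : SizeLE N V K lv φ) (m : ℕ) :
    SizeLE (N * N + 3 * N + 3 * m + 4) (PVar V m φ.length) (2 * m + 3 + 2 * K) (plv K lv)
      (cnf lv φ m) := by
  obtain ⟨h1, h2, h3, h4, h5⟩ := h
  refine ⟨?_, by omega, ?_, ?_, plv_lt h5⟩
  · simp only [Fintype.card_sum, Fintype.card_fin, Fintype.card_unit]
    omega
  · have : (List.ofFn fun i : Fin φ.length => (φ.get i).map fun l =>
        [((c i : PVar V m φ.length), false), (e₂ lv l.1, !l.2)]).flatten.length ≤ N * N := by
      rw [List.length_flatten, List.map_ofFn, List.sum_ofFn]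
      calc _ ≤ ∑ _i : Fin φ.length, N := sum_le_sum fun i _ => by
            simpa using h4 _ (List.get_mem φ i)
        _ = φ.length * N := by simp
        _ ≤ _ := Nat.mul_le_mul_right _ h3
    simp only [cnf, List.length_append, List.length_map, List.length_ofFn, List.length_singleton]
    omega
  · simp only [cnf, List.forall_mem_append, List.forall_mem_map, List.forall_mem_singleton,
      List.forall_mem_flatten, List.forall_mem_ofFn_iff, List.length_cons, List.length_map,
      List.length_ofFn, List.length_nil]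
    refine ⟨⟨⟨⟨⟨fun C hC => ?_, by omega⟩, fun _ _ _ => by omega⟩, by omega⟩,
      fun _ => by omega⟩, fun _ => by omega⟩
    have := h4 C hC
    omega

end PVar

section Measure

variable {μ : ∀ V : Type, ((V → Bool) → Bool) → ℕ} (hμ : IsMeasure μ) [Finite V]

include hμ in
lemma measure_all {ι : Type} (s : Finset ι) (g : ι → (V → Bool) → Bool) (F : (V → Bool) → Bool)
    (hF : ∀ a, F a = true ↔ ∀ i ∈ s, g i a = true) :
    μ V F ≤ ∑ i ∈ s, (μ V (g i) + 1) + μ V fun _ => true := by
  classical
  induction s using Finset.induction_on generalizing F with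
  | empty =>
    have : F = fun _ => true := funext fun a => (hF a).2 (by simp)
    simp [this]
  | insert i s hi ih =>
    have := hμ.2.2 V (g i) fun a => decide (∀ i ∈ s, g i a = true)
    have h2 := ih (fun a => decide (∀ i ∈ s, g i a = true)) (by simp)
    rw [sum_insert hi]
    have h1 : F = fun a => g i a && decide (∀ i ∈ s, g i a = true) := by
      funext a
      rw [Bool.eq_iff_iff, hF]
      simp
    rw [h1]
    omega

include hμ in
lemma measure_any {ι : Type} (s : Finset ι) (g : ι → (V → Bool) → Bool) (F : (V → Bool) → Bool)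
    (hF : ∀ a, F a = true ↔ ∃ i ∈ s, g i a = true) :
    μ V F ≤ ∑ i ∈ s, (μ V (g i) + 2) + (μ V fun _ => true) + 1 := by
  have h1 := measure_all hμ s (fun i a => !g i a) (fun a => !F a) fun a => by
    have := hF a
    simp only [Bool.not_eq_true', ← Bool.not_eq_true, this]
    simp
  have h2 := hμ.2.1 V fun a => !F a
  have h3 : ∑ i ∈ s, (μ V (fun a => !g i a) + 1) ≤ ∑ i ∈ s, (μ V (g i) + 2) :=
    sum_le_sum fun i _ => by have := hμ.2.1 V (g i); omega
  simp only [Bool.not_not] at h2
  exact h2.trans (by omega)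

end Measure

open PVar in
theorem qbfEasy_of_polyBounded {μ : ∀ V : Type, ((V → Bool) → Bool) → ℕ} (hμ : IsMeasure μ)
    {k : ℕ} (h : PolyBounded μ k) : QBFEasy μ := by
  classical
  obtain ⟨e, he⟩ := h
  refine ⟨2 * ((3 * k + 5) * e) + ((k + 1) * (2 * k + 9) + 3),
    fun N V _ K lv φ f hsz hf => ?_⟩
  have hlv := hsz.2.2.2.2
  have hf0 : ∀ a a' : V → Bool, (∀ v, lv v = 0 → a v = a' v) → f a = f a' := by
    intro a a' h
    have h' : ∀ v, (lv v < 1 ∨ 1 + (K - 1) ≤ lv v) → a v = a' v := fun v hv =>
      h v (by have := hlv v; omega)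
    rw [Bool.eq_iff_iff, hf, hf]
    exact ⟨holds_congr _ _ _ _ h', holds_congr _ _ _ _ fun v hv => (h' v hv).symm⟩
  obtain ⟨S, hS, hS₁, hS₂⟩ := exists_both hlv hf
  obtain ⟨r, L, hL, hB⟩ := he _ _ _ _ _ (size_le hsz k) (cnf_false hlv hf0 hS hS₁ hS₂)
  set B := ∑ i, (μ _ (L i) + 1) with hBdef
  let ext : (V → Bool) → PVar V k φ.length → Bool := fun x => Sum.elim x fun _ => false
  let T : Fin r → Bool → ℕ → (V → Bool) → Bool := fun i s o x =>
    L i (test (plv K lv) (ext x) s o)
  have hT : ∀ i s o, μ V (T i s o) ≤ μ _ (L i) + 1 := by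
    intro i s o
    convert hμ.1 _ V (fun v => if plv K lv v = 0 then
      Sum.elim Sum.inl (fun _ => Sum.inr false) v else
      Sum.inr (test (plv K lv) (fun _ => false) s o v)) (L i) using 4 with x v
    funext v
    by_cases h0 : plv K lv v = 0
    · rcases v with v | v <;> simp [test, h0, ext]
    · simp [test, h0]
  have hi : ∀ i, μ _ (L i) + 1 ≤ B := fun i =>
    single_le_sum (f := fun i => μ _ (L i) + 1) (fun _ _ => Nat.zero_le _) (mem_univ i)
  have hr : r ≤ B := by
    calc r = ∑ _i : Fin r, 1 := by simp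
      _ ≤ _ := sum_le_sum fun i _ => by omega
  obtain ⟨i₀, hi₀⟩ := hL.2
  have hB1 : 1 ≤ B := le_trans (by omega) (hi i₀)
  have ht : (μ V fun _ => true) ≤ B + 1 := by
    have h1 := hμ.2.1 V (T i₀ false 0)
    have h2 := hT i₀ false 0
    have h3 := hi i₀
    have h4 : (fun a => !T i₀ false 0 a) = fun _ => true := by
      funext a
      simp [T, hi₀]
    rw [h4] at h1
    omega
  let Z : Fin r → Prop := fun i => ∀ v ∈ Ess (L i), plv K lv v < 2 * k + 2
  let A : Fin r → (V → Bool) → Bool := fun i x => decide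
    (∀ p ∈ (univ ×ˢ range (k + 1)).filter fun p : Fin r × ℕ => p.1 ≤ i ∧ Z p.1,
      T p.1 false p.2 x = true)
  have hA : ∀ i, μ V (A i) ≤ (2 * k + 3) * B + 1 := by
    intro i
    refine (measure_all hμ ((univ ×ˢ range (k + 1)).filter fun p : Fin r × ℕ => p.1 ≤ i ∧ Z p.1)
      (fun p : Fin r × ℕ => T p.1 false p.2) (A i)
      fun _ => by simp only [A, decide_eq_true_eq]).trans ?_
    have : ∑ p ∈ (univ ×ˢ range (k + 1)).filter fun p : Fin r × ℕ => p.1 ≤ i ∧ Z p.1,
        (μ V (T p.1 false p.2) + 1) ≤ (k + 1) * (2 * B) := by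
      calc _ ≤ ∑ p ∈ univ ×ˢ range (k + 1), (μ V (T p.1 false p.2) + 1) :=
            sum_le_sum_of_subset (filter_subset _ _)
        _ ≤ ∑ p ∈ (univ : Finset (Fin r)) ×ˢ range (k + 1), 2 * (μ _ (L p.1) + 1) :=
            sum_le_sum fun p _ => by have := hT p.1 false p.2; omega
        _ = _ := by
            rw [sum_product_right]
            simp only [sum_const, card_range, smul_eq_mul]
            rw [← mul_sum]
    nlinarith
  have hf' : ∀ x, f x = true ↔ ∃ p ∈ (univ ×ˢ range (k + 1)).filter
      fun p : Fin r × ℕ => Z p.1, ((!T p.1 true p.2 x) && A p.1 x) = true := by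
    intro x
    refine ((padded hlv hf0 hS hS₁ hS₂ k).decision_list hL (by omega) (ext x)).trans ?_
    simp only [mem_filter, mem_product, mem_univ, true_and, mem_range, Prod.exists,
      Bool.and_eq_true, Bool.not_eq_true', A, decide_eq_true_eq, Prod.forall,
      Nat.lt_succ_iff (n := k), and_imp, and_assoc]
    refine exists_congr fun i => exists_congr fun o => and_congr_right fun _ =>
      and_congr_right fun _ => and_congr_right fun _ => forall_congr' fun i' => ?_
    exact ⟨fun h o' h1 h2 h3 => h h2 o' h1 h3, fun h h2 o' h1 h3 => h o' h1 h2 h3⟩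
  have hmain : μ V f ≤ ((k + 1) * (2 * k + 9) + 3) * (B * B) := by
    refine (measure_any hμ _ (fun p : Fin r × ℕ => fun x => (!T p.1 true p.2 x) && A p.1 x) _
      hf').trans ?_
    have : ∑ p ∈ (univ ×ˢ range (k + 1)).filter fun p : Fin r × ℕ => Z p.1,
        (μ V (fun x => (!T p.1 true p.2 x) && A p.1 x) + 2) ≤
          (r * (k + 1)) * ((2 * k + 9) * B) := by
      calc _ ≤ ∑ p ∈ univ ×ˢ range (k + 1),
              (μ V (fun x => (!T p.1 true p.2 x) && A p.1 x) + 2) :=
            sum_le_sum_of_subset (filter_subset _ _)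
        _ ≤ ∑ _p ∈ (univ : Finset (Fin r)) ×ˢ range (k + 1), (2 * k + 9) * B :=
            sum_le_sum fun p _ => by
              have h1 := hμ.2.2 V (fun x => !T p.1 true p.2 x) (A p.1)
              have h2 := hμ.2.1 V (T p.1 true p.2)
              have h3 := hT p.1 true p.2
              have h4 := hi p.1
              have h5 := hA p.1
              nlinarith
        _ = _ := by simp
    have h6 : (r * (k + 1)) * ((2 * k + 9) * B) ≤ (B * (k + 1)) * ((2 * k + 9) * B) :=
      Nat.mul_le_mul_right _ (Nat.mul_le_mul_right _ hr)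
    nlinarith
  have h7 : N * N + 3 * N + 3 * k + 4 + 2 ≤ (N + 2) ^ (3 * k + 5) := by
    calc _ ≤ (N + 2) ^ 2 * (3 * k + 3) := by nlinarith [Nat.zero_le (N * N * k), Nat.zero_le (N * k)]
      _ ≤ (N + 2) ^ 2 * (N + 2) ^ (3 * k + 3) := Nat.mul_le_mul_left _
          ((Nat.lt_two_pow_self).le.trans (Nat.pow_le_pow_left (by omega) _))
      _ = _ := by ring
  have h8 : B ≤ (N + 2) ^ ((3 * k + 5) * e) := by
    rw [pow_mul]
    exact hB.trans (Nat.pow_le_pow_left h7 _)
  have h9 : (k + 1) * (2 * k + 9) + 3 ≤ (N + 2) ^ ((k + 1) * (2 * k + 9) + 3) :=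
    (Nat.lt_two_pow_self).le.trans (Nat.pow_le_pow_left (by omega) _)
  calc μ V f ≤ _ := hmain
    _ ≤ (N + 2) ^ ((k + 1) * (2 * k + 9) + 3) *
        ((N + 2) ^ ((3 * k + 5) * e) * (N + 2) ^ ((3 * k + 5) * e)) :=
        Nat.mul_le_mul h9 (Nat.mul_le_mul h8 h8)
    _ = _ := by ring

end Pool.Agent.MP_a2d820_lc
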