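import Pool.Agent.MP_a2d820_lc.Defs2
import Pool.Agent.MP_a2d820_lc.Formula

/-!
Short refutations from small measure of the functions defined by quantified formulas.
-/

open Finset

namespace Pool.Agent.MP_a2d820_lc

variable {V : Type}

lemma holds_congr {b : V → ℕ} {ψ : (V → Bool) → Prop} (r : ℕ) :
    ∀ (j : ℕ) (a a' : V → Bool), (∀ v, (b v < j ∨ j + r ≤ b v) → a v = a' v) →
      HoldsFrom b ψ r j a → HoldsFrom b ψ r j a' := by
  classical
  induction r with
  | zero =>
    intro j a a' h ha
    rwa [← funext fun v => h v (by omega)]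
  | succ r ih =>
    intro j a a' h ha
    unfold HoldsFrom at ha ⊢
    split_ifs at ha ⊢ with hev
    · obtain ⟨c, hc, hc'⟩ := ha
      refine ⟨fun v => if b v = j then c v else a' v, fun v hv => by simp [hv],
        ih _ _ _ (fun v hv => ?_) hc'⟩
      split_ifs with h1
      · rfl
      · rw [hc v h1, h v (by omega)]
    · intro c hc
      refine ih _ _ _ (fun v hv => ?_)
        (ha (fun v => if b v = j then c v else a v) fun v hv => by simp [hv])
      split_ifs with h1
      · rfl
      · rw [hc v h1, h v (by omega)]

lemma holds_shift {b b' : V → ℕ} {ψ : (V → Bool) → Prop} (r : ℕ) :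
    ∀ (j j' : ℕ) (a : V → Bool), (Even j ↔ Even j') → (∀ v t, b v = j + t ↔ b' v = j' + t) →
      (HoldsFrom b ψ r j a ↔ HoldsFrom b' ψ r j' a) := by
  induction r with
  | zero => intro j j' a _ _; rfl
  | succ r ih =>
    intro j j' a hev h
    have h0 : ∀ v, b v ≠ j ↔ b' v ≠ j' := fun v => not_congr (h v 0)
    have h1 : ∀ c, HoldsFrom b ψ r (j + 1) c ↔ HoldsFrom b' ψ r (j' + 1) c := fun c =>
      ih _ _ c (by simp [Nat.even_add_one, hev]) fun v t => by
        have := h v (t + 1)
        omega
    unfold HoldsFrom
    simp only [h0, h1, hev]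

lemma holds_empty {b : V → ℕ} {ψ : (V → Bool) → Prop} {r j : ℕ} (h : ∀ v, b v ≠ j)
    (a : V → Bool) : HoldsFrom b ψ (r + 1) j a ↔ HoldsFrom b ψ r (j + 1) a := by
  have h1 : ∀ a' : V → Bool, (∀ v, b v ≠ j → a' v = a v) ↔ a' = a :=
    fun a' => ⟨fun h' => funext fun v => h' v (h v), fun h' v _ => by rw [h']⟩
  conv_lhs => unfold HoldsFrom
  simp only [h1]
  split_ifs <;> simp

lemma holds_dual {b : V → ℕ} {ψ : (V → Bool) → Prop} (r : ℕ) :
    ∀ (j : ℕ) (a : V → Bool),
      ¬ HoldsFrom b ψ r j a ↔ HoldsFrom (fun v => b v + 1) (fun a => ¬ ψ a) r (j + 1) a := by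
  induction r with
  | zero => intro j a; rfl
  | succ r ih =>
    intro j a
    unfold HoldsFrom
    by_cases hev : Even j
    · rw [if_pos hev, if_neg (by simp [Nat.even_add_one, hev])]
      simp only [← ih, not_exists, not_and, ne_eq, add_left_inj]
    · rw [if_neg hev, if_pos (by simp [Nat.even_add_one, hev])]
      simp only [← ih, not_forall, ne_eq, add_left_inj, exists_prop]

lemma ess_subset [DecidableEq V] {L : (V → Bool) → Bool} {p : V → Prop}
    (h : ∀ a a' : V → Bool, (∀ v, p v → a v = a' v) → L a = L a') : ∀ v ∈ Ess L, p v := by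
  rintro v ⟨a, ha⟩
  by_contra hv
  apply ha
  apply h
  intro w hw
  have : w ≠ v := by rintro rfl; exact hv hw
  simp [Function.update_of_ne this]

theorem polyBounded_of_qbfEasy {μ : ∀ V : Type, ((V → Bool) → Bool) → ℕ} (h : QBFEasy μ)
    {k : ℕ} (hk : 3 ≤ k) : PolyBounded μ k := by
  classical
  obtain ⟨c, hc⟩ := h
  refine ⟨2 * c + 2, fun N V _ _ K lv φ hsz hfalse => ?_⟩
  obtain ⟨h1, h2, h3, h4, h5⟩ := hsz
  let G : ℕ → (V → Bool) → Bool := fun i a => decide (HoldsFrom lv (CNFSat φ) i (K - i) a)
  have hG : ∀ i ≤ K, ∀ a a' : V → Bool, (∀ v, lv v < K - i → a v = a' v) → G i a = G i a' := by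
    intro i hi a a' h
    have h' : ∀ v, (lv v < K - i ∨ K - i + i ≤ lv v) → a v = a' v := fun v hv =>
      h v (by have := h5 v; omega)
    simp only [G]
    congr 1
    exact propext ⟨holds_congr _ _ _ _ h', holds_congr _ _ _ _ fun v hv => (h' v hv).symm⟩
  refine ⟨K + 1, fun i => G i, ⟨fun i => ?_, Fin.last K, fun a => ?_⟩, ?_⟩
  · have hzero : IsRelax lv (Ess (G i)) k fun _ => 0 := ⟨fun _ => by show 0 < k; omega, by simp⟩
    rcases i with ⟨_ | i, hi⟩
    · refine ⟨_, hzero, not_qtrue_of_strategy hzero.1 (fun _ _ => false) (fun _ _ _ _ => rfl) ?_⟩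
      rintro a _ ⟨ha, _, ha'⟩
      simp only [G, decide_eq_false_iff_not] at ha'
      exact ha' ha
    have hj : K - i = K - (i + 1) + 1 := by omega
    by_cases hev : Even (K - (i + 1))
    · refine ⟨_, hzero, not_qtrue_of_strategy hzero.1 (fun _ _ => false) (fun _ _ _ _ => rfl) ?_⟩
      rintro a _ ⟨_, ha, ha'⟩
      have := ha ⟨i, by omega⟩ (by simp [Fin.lt_def])
      simp only [G, decide_eq_false_iff_not, decide_eq_true_eq] at ha' this
      apply ha'
      unfold HoldsFrom
      rw [if_pos hev, ← hj]
      exact ⟨a, fun _ _ => rfl, this⟩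
    · set j := K - (i + 1) with hjdef
      have hess := ess_subset (hG (i + 1) (by omega))
      have hrel : IsRelax lv (Ess (G (i + 1))) k
          fun v => if lv v < j then 0 else if lv v = j then 1 else 2 := by
        refine ⟨fun v => by beta_reduce; split_ifs <;> omega, fun u hu => ?_⟩
        have hu' : lv u = j := by
          by_contra hne
          beta_reduce at hu
          split_ifs at hu <;> simp_all [Nat.odd_iff]
        refine ⟨hu' ▸ Nat.not_even_iff_odd.1 hev, fun hm => ?_, fun w hw => ?_, fun y _ hy => ?_⟩
        · have := hess u hm; omega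
        · have := hess w hw; omega
        · beta_reduce
          rw [if_neg (by omega), if_pos hu', if_neg (by omega), if_neg (by omega)]
          omega
      have hch : ∀ a : V → Bool, ∃ a' : V → Bool, G (i + 1) a = false →
          (∀ v, lv v ≠ j → a' v = a v) ∧ G i a' = false := by
        intro a
        by_cases ha : G (i + 1) a = false
        · simp only [G, decide_eq_false_iff_not] at ha ⊢
          unfold HoldsFrom at ha
          rw [if_neg hev, ← hj] at ha
          push Not at ha
          obtain ⟨a', ha'⟩ := ha
          exact ⟨a', fun _ => ha'⟩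
        · exact ⟨a, fun h => absurd h ha⟩
      choose w hw using hch
      refine ⟨_, hrel, not_qtrue_of_strategy hrel.1
        (fun a u => if lv u < j then false else w (fun v => if lv v < j then a v else false) u)
        ?_ ?_⟩
      · intro a a' u hu
        by_cases h0 : lv u < j
        · rw [if_pos h0, if_pos h0]
        · rw [if_neg h0, if_neg h0]
          congr 1
          funext v
          by_cases hv : lv v < j
          · rw [if_pos hv, if_pos hv]
            apply hu
            rw [if_pos hv, if_neg h0]
            split_ifs <;> omega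
          · rw [if_neg hv, if_neg hv]
      · rintro a ha ⟨_, ha1, ha2⟩
        have h6 := ha1 ⟨i, by omega⟩ (by simp [Fin.lt_def])
        have h7 : G (i + 1) (fun v => if lv v < j then a v else false) = false := by
          rw [← ha2]
          exact hG _ (by omega) _ _ fun v hv => if_pos hv
        obtain ⟨h8, h9⟩ := hw _ h7
        have h10 : G i a = G i (w fun v => if lv v < j then a v else false) := by
          refine hG _ (by omega) _ _ fun v hv => ?_
          by_cases hvj : lv v = j
          · have := ha v (by simp [hvj])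
            beta_reduce at this
            rwa [if_neg (by omega)] at this
          · rw [h8 v hvj, if_pos (by omega)]
        simp only at h6
        rw [h10, h9] at h6
        exact absurd h6 (by simp)
  · have := hG K le_rfl a (fun _ => false) (by simp)
    simp only [Fin.val_last]
    rw [this]
    simpa [G, QTrue] using hfalse
  · have hb : ∀ i : Fin (K + 1), μ V (G i) ≤ (N + 4) ^ c := by
      intro i
      have hi : i.val ≤ K := Nat.lt_succ_iff.1 i.2
      by_cases hev : Even (K - i)
      · refine hc (N + 2) V (i + 2) (fun v => if lv v < K - i then 0 else lv v - (K - i) + 2) φ _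
          ⟨by omega, by omega, by omega, fun c hc => (h4 c hc).trans (by omega), fun v => ?_⟩
          fun a => ?_
        · have := h5 v
          beta_reduce
          split_ifs <;> omega
        · rw [show i.val + 2 - 1 = i + 1 by omega, holds_empty (fun v => by split_ifs <;> omega)]
          simp only [G, decide_eq_true_eq]
          refine holds_shift _ _ _ _ (by simp [hev]) fun v t => ?_
          split_ifs <;> omega
      · refine hc (N + 2) V (i + 1) (fun v => if lv v < K - i then 0 else lv v - (K - i) + 1) φ _
          ⟨by omega, by omega, by omega, fun c hc => (h4 c hc).trans (by omega), fun v => ?_⟩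
          fun a => ?_
        · have := h5 v
          beta_reduce
          split_ifs <;> omega
        · simp only [G, decide_eq_true_eq, Nat.add_sub_cancel]
          refine holds_shift _ _ _ _ (by simp [hev]) fun v t => ?_
          split_ifs <;> omega
    have h6 : (N + 4) ^ c ≤ (N + 2) ^ (2 * c) := by
      rw [pow_mul]
      exact Nat.pow_le_pow_left (by nlinarith) _
    have h7 : 1 ≤ (N + 2) ^ (2 * c) := Nat.one_le_pow _ _ (by omega)
    calc ∑ i : Fin (K + 1), (μ V (G i) + 1) ≤ ∑ _i : Fin (K + 1), 2 * (N + 2) ^ (2 * c) :=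
          sum_le_sum fun i _ => by have := hb i; omega
      _ = ((K + 1) * 2) * (N + 2) ^ (2 * c) := by simp [mul_assoc]
      _ ≤ (N + 2) ^ 2 * (N + 2) ^ (2 * c) := Nat.mul_le_mul_right _ (by nlinarith)
      _ = _ := by ring

end Pool.Agent.MP_a2d820_lc
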